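import Pool.Agent.Q304.SH.Dens

/-!
A family of continuum many points, pairwise incomparable for almost inclusion, such that every set of
positive measure contains continuum many of them.
-/

open Set Cardinal Topology Filter MeasureTheory
open scoped Pointwise

namespace Pool.Agent.Q304.SH

lemma zero_mem_HH : (0 : C2) ∈ HH := by
  intro k
  refine Eventually.of_forall fun n => ?_
  have : dn n (0 : C2) = 0 := by simp [dn]
  rw [this]
  simp

/-- Equivalence modulo density zero. -/
def sHH : Setoid C2 where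
  r x y := x + y ∈ HH
  iseqv := ⟨fun x => by rw [two_add]; exact zero_mem_HH, fun {x y} h => by rwa [add_comm],
    fun {x y z} h h' => by
      have h1 := HH_add h h'
      have h2 : x + y + (y + z) = x + z := by
        rw [add_assoc, ← add_assoc y y z, two_add, zero_add]
      rwa [h2] at h1⟩

/-- The union of the blocks with indices `≥ m` in `A`. -/
noncomputable def zz (m : ℕ) (A : Set ℕ) : C2 := by
  classical
  exact fun i => if Nat.log 2 i ∈ A ∧ m ≤ Nat.log 2 i then 1 else 0

lemma dn_zz {m : ℕ} {A A' : Set ℕ} {n : ℕ} (hn : n ∈ A) (hn' : n ∉ A') (hm : m ≤ n) :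
    dn n (zz m A + zz m A') = 2 ^ n := by
  classical
  unfold dn
  rw [Finset.filter_true_of_mem, Nat.card_Ico]
  · rw [pow_succ]; omega
  · intro i hi
    obtain ⟨h1, h2⟩ := Finset.mem_Ico.1 hi
    have hlog : Nat.log 2 i = n := by
      rw [Nat.log_eq_iff (Or.inr ⟨by norm_num, by
        have : 0 < 2 ^ n := by positivity
        omega⟩)]
      exact ⟨h1, h2⟩
    simp [zz, hlog, hn, hn', hm]

lemma mk_image_nhds {U : Set C2} (hU : U ∈ 𝓝 (0 : C2)) :
    𝔠 ≤ #((Quotient.mk sHH) '' U : Set (Quotient sHH)) := by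
  classical
  obtain ⟨B, hB⟩ := Pool.Agent.Q304.FP.exists_indep
  rw [nhds_pi, Filter.mem_pi] at hU
  obtain ⟨I, hI, t, ht, htU⟩ := hU
  obtain ⟨b, hb⟩ := hI.bddAbove
  have hz : ∀ A : Set ℕ, zz (b + 1) A ∈ U := by
    intro A
    refine htU fun i hi => ?_
    have h1 : i ≤ b := hb hi
    have h2 : Nat.log 2 i ≤ i := Nat.log_le_self 2 i
    have h3 : zz (b + 1) A i = 0 := by
      simp only [zz]
      rw [if_neg]
      intro h
      have := h.2
      omega
    rw [h3]
    exact mem_of_mem_nhds (ht i)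
  have hinj : Function.Injective (fun A : Set ℕ =>
      (⟨Quotient.mk sHH (zz (b + 1) (B A)), mem_image_of_mem _ (hz _)⟩ :
        ((Quotient.mk sHH) '' U : Set (Quotient sHH)))) := by
    intro A A' h
    by_contra hne
    have h1 : Quotient.mk sHH (zz (b + 1) (B A)) = Quotient.mk sHH (zz (b + 1) (B A')) :=
      congrArg Subtype.val h
    have h2 : zz (b + 1) (B A) + zz (b + 1) (B A') ∈ HH := Quotient.exact h1
    have h3 := hB {A, A'} (fun _ _ => trivial) (fun C => decide (C = A))
    have h4 := h2 2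
    rw [← Nat.cofinite_eq_atTop] at h4
    have h5 : ∀ᶠ n in cofinite, b + 1 ≤ n := by
      rw [Nat.cofinite_eq_atTop]; exact eventually_ge_atTop _
    obtain ⟨n, hn, hn2, hn3⟩ := (h3.and_eventually (h4.and h5)).exists
    have a1 : n ∈ B A := by
      have := hn.2 A (by simp)
      simpa using this
    have a2 : n ∉ B A' := by
      have := hn.2 A' (by simp)
      have hne' : A' ≠ A := fun h => hne h.symm
      simpa [hne'] using this
    rw [dn_zz a1 a2 hn3] at hn2
    have : 0 < 2 ^ n := by positivity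
    omega
  have h9 := mk_le_of_injective hinj
  have h10 : #(Set ℕ) = 𝔠 := by simp
  rwa [h10] at h9

/-- Every set of positive measure contains continuum many inequivalent points of density one
half. -/
lemma exists_ineq {T : Set C2} (hT : MeasurableSet T) (hpos : 0 < μ T) :
    ∃ T' : Set C2, T' ⊆ T ∧ T' ⊆ WW ∧ 𝔠 ≤ #T' ∧ ∀ x ∈ T', ∀ y ∈ T', x + y ∈ HH → x = y := by
  classical
  -- a measurable part of `T ∩ WW`
  obtain ⟨N, hN, hNm, hN0⟩ := exists_measurable_superset_of_null measure_WW_compl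
  have hE : MeasurableSet (T \ N) := hT.diff hNm
  have hEpos : 0 < μ (T \ N) := by
    rw [measure_sdiff_null hN0]
    exact hpos
  have hEW : T \ N ⊆ WW := by
    intro x hx
    by_contra h
    exact hx.2 (hN h)
  have hU := Measure.sub_mem_nhds_zero_of_addHaar_pos μ (T \ N) hE hEpos
  set E := T \ N with hEdef
  -- classes
  let S : Set (Quotient sHH) := (Quotient.mk sHH) '' E
  have hS : 𝔠 ≤ #S := by
    by_contra hcon
    rw [not_le] at hcon
    have h1 := mk_image_nhds hU
    let sb : Quotient sHH × Quotient sHH → Quotient sHH := fun p =>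
      Quotient.mk sHH (p.1.out + p.2.out)
    have h2 : (Quotient.mk sHH) '' (E - E) ⊆ sb '' (S ×ˢ S) := by
      rintro _ ⟨_, ⟨x, hx, y, hy, rfl⟩, rfl⟩
      refine ⟨(Quotient.mk sHH x, Quotient.mk sHH y), ⟨⟨x, hx, rfl⟩, ⟨y, hy, rfl⟩⟩, ?_⟩
      refine Quotient.sound ?_
      have h3 : (Quotient.mk sHH x).out + x ∈ HH := Quotient.mk_out (s := sHH) x
      have h4 : (Quotient.mk sHH y).out + y ∈ HH := Quotient.mk_out (s := sHH) y
      change (Quotient.mk sHH x).out + (Quotient.mk sHH y).out + (x - y) ∈ HH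
      have h5 : x - y = x + y := by
        funext i
        have : ∀ a b : ZMod 2, a - b = a + b := by decide
        exact this _ _
      rw [h5]
      have h6 := HH_add h3 h4
      have h7 : (Quotient.mk sHH x).out + x + ((Quotient.mk sHH y).out + y) =
        (Quotient.mk sHH x).out + (Quotient.mk sHH y).out + (x + y) := by abel
      rwa [h7] at h6
    have h3 : #((Quotient.mk sHH) '' (E - E) : Set (Quotient sHH)) < 𝔠 :=
      (mk_le_mk_of_subset h2).trans_lt (mk_image_le.trans_lt (small_prod hcon hcon))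
    exact absurd h1 (not_le.2 h3)
  have hrep : ∀ q : S, ∃ x ∈ E, Quotient.mk sHH x = q := fun q => q.2
  choose ρ hρE hρ using hrep
  refine ⟨range ρ, ?_, ?_, ?_, ?_⟩
  · rintro _ ⟨q, rfl⟩
    exact (hρE q).1
  · rintro _ ⟨q, rfl⟩
    exact hEW (hρE q)
  · have hinj : Function.Injective ρ := by
      intro q q' h
      apply Subtype.ext
      rw [← hρ q, ← hρ q', h]
    rw [mk_range_eq ρ hinj]
    exact hS
  · rintro _ ⟨q, rfl⟩ _ ⟨q', rfl⟩ h
    have h1 : Quotient.mk sHH (ρ q) = Quotient.mk sHH (ρ q') := Quotient.sound h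
    rw [hρ, hρ] at h1
    rw [Subtype.ext h1]

/-- A recursion in which at each stage few points of a big set are to be avoided. -/
lemma rec_avoid {G Θ : Type} [LinearOrder Θ] [WellFoundedLT Θ] [Nonempty G] (T : Θ → Set G)
    (bad : (Θ → G) → Θ → Set G) (hne : ∀ f α, ∃ x, x ∈ T α ∧ x ∉ bad f α)
    (hloc : ∀ f g α, (∀ β < α, f β = g β) → bad f α = bad g α) :
    ∃ a : Θ → G, ∀ α, a α ∈ T α ∧ a α ∉ bad a α := by
  classical
  obtain ⟨g₀⟩ := (inferInstance : Nonempty G)
  let ext : (α : Θ) → ((β : Θ) → β < α → G) → Θ → G := fun α f β =>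
    if h : β < α then f β h else g₀
  let F : (α : Θ) → ((β : Θ) → β < α → G) → G := fun α f => (hne (ext α f) α).choose
  let a : Θ → G := (wellFounded_lt (α := Θ)).fix F
  have ha : ∀ α, a α = F α (fun β _ => a β) := fun α => WellFounded.fix_eq _ _ _
  refine ⟨a, fun α => ?_⟩
  have h := (hne (ext α (fun β _ => a β)) α).choose_spec
  have h1 : a α = (hne (ext α (fun β _ => a β)) α).choose := ha α
  rw [← h1] at h
  have hF : bad (ext α (fun β _ => a β)) α = bad a α := by
    refine hloc _ _ _ fun β hβ => ?_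
    simp only [ext]
    exact dif_pos hβ
  rw [hF] at h
  exact h

/-- The index set. -/
abbrev TH : Type := (𝔠 : Cardinal.{0}).ord.ToType

lemma mk_TH : #TH = 𝔠 := by simp [TH]

lemma TH_Iio (θ : TH) : #(Iio θ) < 𝔠 := mk_Iio_toType_ord_lt θ

theorem exists_anti : ∃ b : TH → C2, (∀ α β, α ≠ β → ¬ asub (b α) (b β)) ∧
    ∀ T : Set C2, MeasurableSet T → 0 < μ T → 𝔠 ≤ #{α | b α ∈ T} := by
  classical
  let 𝒯 := {S : Set C2 // MeasurableSet S ∧ 0 < μ S}
  have h𝒯1 : #𝒯 ≤ 𝔠 := by
    refine le_trans ?_ mk_borel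
    refine mk_le_of_injective (f := fun S : 𝒯 =>
      (⟨S.1, S.2.1, fun hc => (ne_of_gt S.2.2) (hc.measure_zero μ)⟩ :
        {S : Set C2 // MeasurableSet S ∧ ¬ S.Countable})) ?_
    intro S S' h
    apply Subtype.ext
    simpa only [Subtype.mk.injEq] using h
  have h𝒯 : #(𝒯 × TH) ≤ #TH := by
    rw [mk_prod, mk_TH]
    simp only [lift_id]
    exact (mul_le_mul_left h𝒯1 𝔠).trans (by simp)
  obtain ⟨j⟩ := (Cardinal.le_def _ _).1 h𝒯
  have hΘne : Nonempty TH := by
    rw [← mk_ne_zero_iff, mk_TH]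
    exact (aleph0_pos.trans aleph0_lt_continuum).ne'
  have : Nonempty (𝒯 × TH) := ⟨⟨⟨Set.univ, MeasurableSet.univ,
    IsOpen.measure_pos μ isOpen_univ univ_nonempty⟩, hΘne.some⟩⟩
  have hπ : Function.Surjective (Function.invFun j) := Function.invFun_surjective j.injective
  set π : TH → 𝒯 × TH := Function.invFun j with hπd
  choose T' hT'T hT'W hT'c hT'i using fun S : 𝒯 => exists_ineq S.2.1 S.2.2
  obtain ⟨b, hb⟩ := rec_avoid (G := C2) (Θ := TH) (fun α => T' (π α).1)
    (fun f α => {x | x ∈ T' (π α).1 ∧ ∃ β < α, x + f β ∈ HH}) (by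
      intro f α
      by_contra hcon
      push Not at hcon
      have h1 : ∀ x : T' (π α).1, ∃ β : Iio α, (x : C2) + f β ∈ HH := by
        intro x
        obtain ⟨_, β, hβ, h⟩ := hcon x x.2
        exact ⟨⟨β, hβ⟩, h⟩
      choose φ hφ using h1
      have hinj : Function.Injective φ := by
        intro x y h
        apply Subtype.ext
        refine hT'i _ x x.2 y y.2 ?_
        have h2 := HH_add (hφ x) (hφ y)
        rw [h] at h2
        have h3 : (x : C2) + f (φ y) + (y + f (φ y)) = x + y := by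
          have : (x : C2) + f (φ y) + (y + f (φ y)) = x + y + (f (φ y) + f (φ y)) := by abel
          rw [this, two_add, add_zero]
        rwa [h3] at h2
      have h2 := mk_le_of_injective hinj
      exact absurd ((hT'c (π α).1).trans h2) (not_le.2 (TH_Iio α))) (by
      intro f g α h
      ext x
      constructor
      · rintro ⟨h1, β, hβ, h2⟩
        exact ⟨h1, β, hβ, by rwa [← h β hβ]⟩
      · rintro ⟨h1, β, hβ, h2⟩
        exact ⟨h1, β, hβ, by rwa [h β hβ]⟩)
  have hbW : ∀ α, b α ∈ WW := fun α => hT'W _ (hb α).1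
  have hne : ∀ α β, α ≠ β → b α + b β ∉ HH := by
    have key : ∀ α β, β < α → b α + b β ∉ HH := by
      intro α β h h2
      exact (hb α).2 ⟨(hb α).1, β, h, h2⟩
    intro α β h
    rcases lt_or_gt_of_ne h with h | h
    · rw [add_comm]; exact key β α h
    · exact key α β h
  refine ⟨b, fun α β h hs => hne α β h (asub_HH (hbW α) (hbW β) hs), ?_⟩
  intro T hT hpos
  have hch : ∀ γ : TH, ∃ α, π α = (⟨⟨T, hT, hpos⟩, γ⟩ : 𝒯 × TH) := fun γ => hπ _
  choose φ hφ using hch
  have hinj : Function.Injective φ := by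
    intro γ γ' h
    have := (hφ γ).symm.trans ((congrArg π h).trans (hφ γ'))
    exact (Prod.ext_iff.1 this).2
  have hle : ∀ γ, b (φ γ) ∈ T := by
    intro γ
    have h1 := hT'T _ (hb (φ γ)).1
    rw [hφ γ] at h1
    exact h1
  have h1 : #TH ≤ #{α | b α ∈ T} :=
    mk_le_of_injective (f := fun γ => (⟨φ γ, hle γ⟩ : {α | b α ∈ T}))
      (fun γ γ' h => hinj (congrArg Subtype.val h))
  rwa [mk_TH] at h1

end Pool.Agent.Q304.SH
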