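import Pool.Agent.Q304.SH.Gen
import Pool.Agent.Q304.FP.Fam

/-!
The Cantor group `ℕ → ZMod 2`, its classes modulo finite changes, and a generic sequence of points.
-/

open Set Cardinal Topology Filter

namespace Pool.Agent.Q304.SH

open Pool.Agent.Q304.FP (Rel)

/-- The Cantor set, as the group `(ℤ/2)^ℕ`. -/
abbrev C2 := ℕ → ZMod 2

/-- The indicator of a finite set. -/
def flp (t : Finset ℕ) : C2 := fun n => if n ∈ t then 1 else 0

lemma two_add (x : C2) : x + x = 0 := by
  funext n
  exact CharTwo.add_self_eq_zero (x n)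

lemma flp_inj {t t' : Finset ℕ} (h : flp t = flp t') : t = t' := by
  ext n
  have := congrFun h n
  simp only [flp] at this
  by_cases h1 : n ∈ t <;> by_cases h2 : n ∈ t' <;> simp_all

/-- The class of `x` modulo finite changes. -/
def cls (x : C2) : Set C2 := range fun t : Finset ℕ => x + flp t

lemma cls_countable (x : C2) : (cls x).Countable := countable_range _

lemma mem_cls_self (x : C2) : x ∈ cls x := ⟨∅, by funext n; simp [flp]⟩

lemma cls_symm (x y : C2) (h : y ∈ cls x) : x ∈ cls y := by
  obtain ⟨t, rfl⟩ := h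
  exact ⟨t, by simp only [add_assoc, two_add, add_zero]⟩

open Classical in
lemma mem_cls_iff (x y : C2) : y ∈ cls x ↔ {n | x n ≠ y n}.Finite := by
  constructor
  · rintro ⟨t, rfl⟩
    refine t.finite_toSet.subset fun n hn => ?_
    by_contra h
    apply hn
    have : n ∉ t := by simpa using h
    simp [flp, this]
  · intro h
    refine ⟨h.toFinset, ?_⟩
    funext n
    simp only [Pi.add_apply, flp, Finite.mem_toFinset]
    by_cases hn : x n = y n
    · simp [hn]
    · simp only [mem_setOf_eq, ne_eq, hn, not_false_eq_true, if_true]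
      have : ∀ a b : ZMod 2, a ≠ b → a + 1 = b := by decide
      exact this _ _ hn

lemma cls_trans (x y z : C2) (h : y ∈ cls x) (h' : z ∈ cls y) : z ∈ cls x := by
  rw [mem_cls_iff] at *
  refine (h.union h').subset fun n hn => ?_
  by_contra hcon
  simp only [mem_union, mem_setOf_eq, ne_eq, not_or, not_not] at hcon
  exact hn (hcon.1.trans hcon.2)

open Classical in
/-- The map that sends `x` to `y` and every other point to a finite change of it. -/
noncomputable def swp (x y z : C2) : C2 :=
  fun k => z k + if ∀ i < k, z i = x i then x k + y k else 0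

lemma swp_agree (x y z : C2) (k : ℕ) : (∀ i < k, swp x y z i = y i) ↔ ∀ i < k, z i = x i := by
  have e : ∀ a b : ZMod 2, a + (a + b) = b := by decide
  constructor
  · intro h i
    induction i using Nat.strong_induction_on with
    | _ i ih =>
      intro hi
      have h1 := h i hi
      have h2 : ∀ j < i, z j = x j := fun j hj => ih j hj (hj.trans hi)
      simp only [swp] at h1
      rw [if_pos h2] at h1
      have e2 : ∀ a b c : ZMod 2, a + (b + c) = c → a = b := by decide
      exact e2 _ _ _ h1
  · intro h i hi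
    have h2 : ∀ j < i, z j = x j := fun j hj => h j (hj.trans hi)
    simp only [swp]
    rw [if_pos h2, h i hi]
    exact e _ _

lemma swp_swp (x y z : C2) : swp y x (swp x y z) = z := by
  funext k
  have h := swp_agree x y z k
  have e : ∀ a b c : ZMod 2, a + (b + c) + (c + b) = a := by decide
  change swp x y z k + (if ∀ i < k, swp x y z i = y i then y k + x k else 0) = z k
  by_cases h1 : ∀ i < k, z i = x i
  · rw [if_pos (h.2 h1)]
    simp only [swp]
    rw [if_pos h1]
    exact e _ _ _
  · rw [if_neg (fun h2 => h1 (h.1 h2))]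
    simp only [swp]
    rw [if_neg h1]
    simp

lemma swp_self (x y : C2) : swp x y x = y := by
  funext k
  have e : ∀ a b : ZMod 2, a + (a + b) = b := by decide
  simp [swp, e]

lemma swp_mem_cls (x y z : C2) (h : z ≠ x) : swp x y z ∈ cls z := by
  rw [mem_cls_iff]
  obtain ⟨n, hn⟩ := Function.ne_iff.1 h
  refine (Set.finite_le_nat n).subset fun k hk => ?_
  by_contra hcon
  apply hk
  have hnk : n < k := by simpa using hcon
  simp only [swp]
  rw [if_neg (fun h2 => hn (h2 n hnk))]
  simp

open Classical in
lemma continuous_swp (x y : C2) : Continuous (swp x y) := by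
  refine continuous_pi fun k => ?_
  let r : C2 → (Fin (k + 1) → ZMod 2) := fun z i => z i
  let g : (Fin (k + 1) → ZMod 2) → ZMod 2 := fun w =>
    w (Fin.last k) + if ∀ i : Fin (k + 1), (i : ℕ) < k → w i = x i then x k + y k else 0
  have hg : Continuous g := continuous_of_discreteTopology
  have hr : Continuous r := continuous_pi fun i => continuous_apply _
  have : (fun z => swp x y z k) = g ∘ r := by
    funext z
    have hiff : (∀ i < k, z i = x i) ↔ ∀ i : Fin (k + 1), (i : ℕ) < k → z i = x i :=
      ⟨fun h i hi => h i hi, fun h i hi => h ⟨i, by omega⟩ hi⟩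
    simp only [swp, g, r, Function.comp, hiff, Fin.val_last]
  rw [this]
  exact hg.comp hr

/-- `swp` as a homeomorphism. -/
noncomputable def swpH (x y : C2) : C2 ≃ₜ C2 where
  toFun := swp x y
  invFun := swp y x
  left_inv := swp_swp x y
  right_inv := swp_swp y x
  continuous_toFun := continuous_swp x y
  continuous_invFun := continuous_swp y x

/-- A homogeneous subspace. -/
def Homog (X : Set C2) : Prop := ∀ x y : X, ∃ h : X ≃ₜ X, h x = y

/-- Every set that is invariant under finite changes is homogeneous. -/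
lemma homog_of_inv {X : Set C2} (hX : ∀ x ∈ X, cls x ⊆ X) : Homog X := by
  intro x y
  have key : ∀ z : C2, z ∈ X ↔ swpH x y z ∈ X := by
    intro z
    change z ∈ X ↔ swp x y z ∈ X
    by_cases hz : z = x
    · rw [hz, swp_self]
      exact ⟨fun _ => y.2, fun _ => x.2⟩
    · have h := swp_mem_cls x y z hz
      exact ⟨fun h1 => hX z h1 h, fun h1 => hX _ h1 (cls_symm _ _ h)⟩
  refine ⟨(swpH x y).subtype key, ?_⟩
  apply Subtype.ext
  exact swp_self x y

/-- Codes for pairs of embeddings of a separable space. -/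
lemma exists_rel {T : Type} [TopologicalSpace T] [TopologicalSpace.SeparableSpace T] [Nonempty T]
    {f g : T → C2} (hf : IsInducing f) (hg : IsInducing g) :
    ∃ c : ℕ → C2 × C2, ∀ τ, Rel c (f τ) (g τ) := by
  obtain ⟨u, hu⟩ := TopologicalSpace.exists_dense_seq T
  have key : ∀ {f g : T → C2} (_ : IsInducing f) (_ : IsInducing g) (τ : T),
      (∀ U ∈ 𝓝 (f τ), ∃ n, f (u n) ∈ U) ∧
        ∀ V ∈ 𝓝 (g τ), ∃ U ∈ 𝓝 (f τ), ∀ n, f (u n) ∈ U → g (u n) ∈ V := by
    intro f g hf hg τ
    constructor
    · intro U hU
      have hU' : f ⁻¹' U ∈ 𝓝 τ := hf.continuous.continuousAt hU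
      obtain ⟨O, hO, hOo, hxO⟩ := mem_nhds_iff.1 hU'
      obtain ⟨n, hn⟩ := hu.exists_mem_open hOo ⟨τ, hxO⟩
      exact ⟨n, hO hn⟩
    · intro V hV
      have hV' : g ⁻¹' V ∈ 𝓝 τ := hg.continuous.continuousAt hV
      rw [hf.nhds_eq_comap, mem_comap] at hV'
      obtain ⟨U, hU, hUV⟩ := hV'
      exact ⟨U, hU, fun n hn => hUV hn⟩
  refine ⟨fun n => (f (u n), g (u n)), fun τ => ⟨key hf hg τ, key hg hf τ⟩⟩

/-- The generic sequence of points. -/
structure Pts where
  /-- The index set. -/
  Θ : Type
  /-- Its order. -/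
  [lo : LinearOrder Θ]
  /-- The points. -/
  a : Θ → C2
  /-- Every code has an index such that no two points of different classes, at least one of which is
  constructed after that index, are related. -/
  code : ∀ c : ℕ → C2 × C2, ∃ s : Θ, ∀ α β : Θ, α ≠ β → (s ≤ α ∨ s ≤ β) → ∀ x ∈ cls (a α),
    ∀ y ∈ cls (a β), ¬ Rel c x y
  /-- The classes are disjoint. -/
  disj : ∀ α β : Θ, ∀ x, x ∈ cls (a α) → x ∈ cls (a β) → α = β
  /-- Every uncountable Borel set contains late points. -/
  big : ∀ S : Set C2, MeasurableSet S → ¬ S.Countable → ∀ θ, ∃ α, θ < α ∧ a α ∈ S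
  /-- Countable cofinality fails. -/
  cof : ∀ f : ℕ → Θ, ∃ θ, ∀ n, f n ≤ θ

end Pool.Agent.Q304.SH
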