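import Pool.Agent.Q304.SH.Strong

/-!
A zero-dimensional space which is the union of a homogeneous subspace and countably many points but
not a countable union of closed homogeneous subspaces.
-/

open Set Cardinal Topology Filter MeasureTheory

namespace Pool.Agent.Q304.SH

open Pool.Agent.Q304.FP (Rel)

lemma compl_singleton_residual (x : C2) : ({x}ᶜ : Set C2) ∈ residual C2 := by
  refine residual_of_dense_open isOpen_compl_singleton ?_
  rw [dense_compl_singleton_iff_not_open]
  intro h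
  have h1 : (0 : ENNReal) < μ ({x} : Set C2) := h.measure_pos μ (singleton_nonempty x)
  simp at h1

/-- Late points in non-meager open sets. -/
lemma exists_late (p : Pts) {O M : Set C2} (hO : IsOpen O) (hne : O.Nonempty) (hM : IsMeagre M)
    (θ : p.Θ) : letI := p.lo; ∃ α, θ < α ∧ p.a α ∈ O ∧ p.a α ∉ M := by
  let _ := p.lo
  obtain ⟨t, htM, htG, htD⟩ := mem_residual.1 hM
  have hS : MeasurableSet (O ∩ t) := hO.measurableSet.inter htG.measurableSet
  have hSc : ¬ (O ∩ t).Countable := by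
    intro hc
    have h1 : (⋂ x ∈ O ∩ t, ({x}ᶜ : Set C2)) ∈ residual C2 :=
      (countable_bInter_mem hc).2 fun x _ => compl_singleton_residual x
    have h2 : t ∈ residual C2 := residual_of_dense_Gδ htG htD
    have h3 := dense_of_mem_residual (inter_mem h1 h2)
    obtain ⟨y, hyO, hy⟩ := h3.inter_open_nonempty O hO hne
    have h4 := mem_iInter₂.1 hy.1 y ⟨hyO, hy.2⟩
    exact h4 rfl
  obtain ⟨α, hα, haS⟩ := p.big _ hS hSc θ
  exact ⟨α, hα, haS.1, fun h => htM haS.2 h⟩

/-- The homogeneous part: the classes of the points outside a set of indices. -/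
def AB (p : Pts) (D : Set p.Θ) : Set C2 := {x | ∃ α, α ∉ D ∧ x ∈ cls (p.a α)}

/-- The whole space. -/
def XB (p : Pts) (D : Set p.Θ) : Set C2 := AB p D ∪ p.a '' D

lemma AB_homog (p : Pts) (D : Set p.Θ) : Homog (AB p D) := by
  refine homog_of_inv ?_
  rintro x ⟨α, hD, hα⟩ y hy
  exact ⟨α, hD, cls_trans _ _ _ hα hy⟩

lemma exists_dense_seq' (p : Pts) : ∃ d : ℕ → p.Θ, Dense (range fun n => p.a (d n)) := by
  obtain ⟨θ, _⟩ := p.code (fun _ => (0, 0))
  let b := TopologicalSpace.countableBasis C2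
  have hb := TopologicalSpace.isBasis_countableBasis C2
  have hbc : b.Countable := TopologicalSpace.countable_countableBasis C2
  have hbne : b.Nonempty := by
    obtain ⟨v, hv, _, _⟩ := hb.exists_subset_of_mem_open (mem_univ (0 : C2)) isOpen_univ
    exact ⟨v, hv⟩
  obtain ⟨e, he⟩ := hbc.exists_eq_range hbne
  have h1 : ∀ n, ∃ α, p.a α ∈ e n := by
    intro n
    have hen : e n ∈ b := by rw [he]; exact mem_range_self n
    obtain ⟨α, _, h, _⟩ := exists_late p (hb.isOpen hen)
      (TopologicalSpace.nonempty_of_mem_countableBasis hen) (IsMeagre.empty) θ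
    exact ⟨α, h⟩
  choose d hd using h1
  refine ⟨d, ?_⟩
  rw [hb.dense_iff]
  intro o ho hne
  have ho' : o ∈ b := ho
  rw [he] at ho'
  obtain ⟨n, rfl⟩ := ho'
  exact ⟨p.a (d n), hd n, n, rfl⟩

theorem XB_not_union (p : Pts) (d : ℕ → p.Θ) (hd : Dense (range fun n => p.a (d n)))
    (L : ℕ → Set C2) (hL : ∀ n, IsClosed (L n)) (hh : ∀ n, Homog (XB p (range d) ∩ L n)) :
    XB p (range d) ≠ ⋃ n, XB p (range d) ∩ L n := by
  let _ := p.lo
  intro hX
  obtain ⟨θD, hθD⟩ := p.cof d
  have hnotD : ∀ α, θD < α → α ∉ range d := by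
    rintro α hα ⟨n, rfl⟩
    exact absurd (hθD n) (not_le.2 hα)
  have hlate : ∀ α, θD < α → p.a α ∈ XB p (range d) := fun α hα =>
    Or.inl ⟨α, hnotD α hα, mem_cls_self _⟩
  have hXB : ∀ x ∈ XB p (range d), ∃ β, x ∈ cls (p.a β) := by
    rintro x (⟨β, _, h⟩ | ⟨β, _, rfl⟩)
    · exact ⟨β, h⟩
    · exact ⟨β, mem_cls_self _⟩
  -- Step 1
  have h1 : ∃ n, (interior (L n)).Nonempty := by
    by_contra hcon
    push Not at hcon
    have hM : IsMeagre (⋃ n, L n) := by
      refine isMeagre_iUnion fun n => ?_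
      have : IsNowhereDense (L n) := by
        rw [(hL n).isNowhereDense_iff]
        exact hcon n
      exact this.isMeagre
    obtain ⟨α, hα, _, haM⟩ := exists_late p isOpen_univ univ_nonempty hM θD
    have h2 := hlate α hα
    rw [hX] at h2
    obtain ⟨n, hn⟩ := mem_iUnion.1 h2
    exact haM (mem_iUnion.2 ⟨n, hn.2⟩)
  obtain ⟨n, hn⟩ := h1
  set O := interior (L n) with hO
  have hOo : IsOpen O := isOpen_interior
  set C := XB p (range d) ∩ L n with hC
  have hOC : ∀ x ∈ XB p (range d), x ∈ O → x ∈ C := fun x hx hxO => ⟨hx, interior_subset hxO⟩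
  -- two points
  obtain ⟨_, hqO, m, rfl⟩ := hd.inter_open_nonempty O hOo hn
  obtain ⟨α₀, hα₀, ha₀O, _⟩ := exists_late p hOo hn IsMeagre.empty θD
  have hqC : p.a (d m) ∈ C := hOC _ (Or.inr ⟨d m, mem_range_self m, rfl⟩) hqO
  have hpC : p.a α₀ ∈ C := hOC _ (hlate α₀ hα₀) ha₀O
  obtain ⟨h, hh0⟩ := hh n ⟨p.a α₀, hpC⟩ ⟨p.a (d m), hqC⟩
  have hcontv : Continuous (fun x : C => (h x : C2)) := continuous_subtype_val.comp h.continuous
  have : Nonempty C := ⟨⟨_, hpC⟩⟩
  obtain ⟨c, hc⟩ := exists_rel (f := fun x : C => (x : C2)) (g := fun x : C => (h x : C2))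
    IsInducing.subtypeVal (IsInducing.subtypeVal.comp h.isInducing)
  obtain ⟨s, hs⟩ := p.code c
  -- Step 3
  have key : ∀ O' : Set C2, IsOpen O' → O'.Nonempty → O' ⊆ O →
      ∃ x : C, (x : C2) ∈ O' ∧ h x = x := by
    intro O' hO' hne' hsub
    let F : Finset ℕ → Set C2 := fun t => {x | ∃ hx : x ∈ C, (h ⟨x, hx⟩ : C2) = x + flp t}
    have h2 : ∃ t, (interior (closure (F t ∩ O'))).Nonempty := by
      by_contra hcon
      push Not at hcon
      have hM : IsMeagre (⋃ t, F t ∩ O') := by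
        refine isMeagre_iUnion fun t => ?_
        have : IsNowhereDense (F t ∩ O') := hcon t
        exact this.isMeagre
      obtain ⟨α, hα, haO, haM⟩ := exists_late p hO' hne' hM (max s θD)
      have haX := hlate α ((le_max_right _ _).trans_lt hα)
      have haC := hOC _ haX (hsub haO)
      obtain ⟨β, hβ⟩ := hXB _ (h ⟨p.a α, haC⟩).2.1
      have hβα : α = β := by
        by_contra hne
        exact hs α β hne (Or.inl ((le_max_left _ _).trans hα.le)) _ (mem_cls_self _) _ hβ
          (hc ⟨p.a α, haC⟩)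
      rw [← hβα] at hβ
      obtain ⟨t, ht⟩ := hβ
      exact haM (mem_iUnion.2 ⟨t, ⟨haC, ht.symm⟩, haO⟩)
    obtain ⟨t, ht⟩ := h2
    have h3 : (interior (closure (F t ∩ O')) ∩ O').Nonempty := by
      obtain ⟨z, hz⟩ := ht
      obtain ⟨w, hw, hw2⟩ := mem_closure_iff.1 (interior_subset hz) _ isOpen_interior hz
      exact ⟨w, hw, hw2.2⟩
    obtain ⟨_, hq', k, rfl⟩ := hd.inter_open_nonempty _ (isOpen_interior.inter hO') h3
    have hqX : p.a (d k) ∈ XB p (range d) := Or.inr ⟨d k, mem_range_self k, rfl⟩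
    have hqC' : p.a (d k) ∈ C := hOC _ hqX (hsub hq'.2)
    have h4 : (h ⟨p.a (d k), hqC'⟩ : C2) = p.a (d k) + flp t := by
      have hcl : IsClosed {x : C | (h x : C2) = x + flp t} :=
        isClosed_eq hcontv (continuous_subtype_val.add continuous_const)
      have hmem : (⟨p.a (d k), hqC'⟩ : C) ∈ closure {x : C | (h x : C2) = x + flp t} := by
        rw [closure_subtype]
        refine closure_mono ?_ (interior_subset hq'.1)
        rintro x ⟨⟨hx, hx2⟩, _⟩
        exact ⟨⟨x, hx⟩, hx2, rfl⟩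
      rw [hcl.closure_eq] at hmem
      exact hmem
    have h5 : p.a (d k) + flp t ∈ XB p (range d) := by
      rw [← h4]
      exact (h ⟨p.a (d k), hqC'⟩).2.1
    have h6 : p.a (d k) + flp t ∈ cls (p.a (d k)) := ⟨t, rfl⟩
    have h7 : p.a (d k) + flp t = p.a (d k) := by
      rcases h5 with ⟨β, hβ, hx⟩ | ⟨β, hβ, hx⟩
      · have := p.disj β (d k) _ hx h6
        exact absurd ⟨k, this.symm⟩ hβ
      · have := p.disj β (d k) _ (hx ▸ mem_cls_self _) h6
        rw [this] at hx
        exact hx.symm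
    refine ⟨⟨p.a (d k), hqC'⟩, hq'.2, ?_⟩
    apply Subtype.ext
    rw [h4, h7]
  -- Step 4
  have hcl : IsClosed {x : C | h x = x} := isClosed_eq h.continuous continuous_id
  have hmem : (⟨p.a α₀, hpC⟩ : C) ∈ closure {x : C | h x = x} := by
    rw [mem_closure_iff]
    intro W hW hpW
    rw [isOpen_induced_iff] at hW
    obtain ⟨V, hV, rfl⟩ := hW
    obtain ⟨x, hx, hx2⟩ := key (V ∩ O) (hV.inter hOo) ⟨p.a α₀, hpW, ha₀O⟩ inter_subset_right
    exact ⟨x, hx.1, hx2⟩
  rw [hcl.closure_eq] at hmem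
  have h8 : p.a α₀ = p.a (d m) := by
    have := hmem.symm.trans hh0
    exact congrArg Subtype.val this
  have h9 := p.disj α₀ (d m) (p.a α₀) (mem_cls_self _) (h8 ▸ mem_cls_self _)
  exact hnotD α₀ hα₀ ⟨m, h9.symm⟩

lemma homog_singleton (x : C2) : Homog {x} := by
  intro y z
  refine ⟨Homeomorph.refl _, ?_⟩
  apply Subtype.ext
  have h1 : (y : C2) = x := y.2
  have h2 : (z : C2) = x := z.2
  change (y : C2) = z
  rw [h1, h2]

/-- `XB` is a countable union of homogeneous subspaces. -/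
lemma XB_sigma (p : Pts) (d : ℕ → p.Θ) : ∃ Y : ℕ → Set C2, (∀ n, Homog (Y n)) ∧
    XB p (range d) = ⋃ n, Y n := by
  refine ⟨fun n => Nat.casesOn n (AB p (range d)) (fun k => {p.a (d k)}), ?_, ?_⟩
  · intro n
    cases n with
    | zero => exact AB_homog p _
    | succ k => exact homog_singleton _
  · ext x
    simp only [mem_iUnion]
    constructor
    · rintro (h | ⟨_, ⟨k, rfl⟩, rfl⟩)
      · exact ⟨0, h⟩
      · exact ⟨k + 1, rfl⟩
    · rintro ⟨n, hn⟩
      cases n with
      | zero => exact Or.inl hn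
      | succ k => exact Or.inr ⟨d k, mem_range_self k, (show x = p.a (d k) from hn).symm⟩

end Pool.Agent.Q304.SH
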