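import Pool.Agent.Q304.SH.Strong

/-!
Points of the Cantor group of density one half, the relation of almost inclusion, and continuum many
inequivalent points in every set of positive measure.
-/

open Set Cardinal Topology Filter MeasureTheory

namespace Pool.Agent.Q304.SH

/-- The number of ones of `x` in the block `[2^n, 2^(n+1))`. -/
def dn (n : ℕ) (x : C2) : ℕ := ((Finset.Ico (2 ^ n) (2 ^ (n + 1))).filter (fun i => x i ≠ 0)).card

/-- The sign of the `i`-th coordinate. -/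
def rr (i : ℕ) (x : C2) : ℝ := if x i = 0 then 1 else -1

/-- The sum of signs over a block. -/
def Sn (n : ℕ) (x : C2) : ℝ := ∑ i ∈ Finset.Ico (2 ^ n) (2 ^ (n + 1)), rr i x

lemma Sn_eq (n : ℕ) (x : C2) : Sn n x = 2 ^ n - 2 * (dn n x : ℝ) := by
  unfold Sn dn
  have h1 : ∀ i, rr i x = 1 - 2 * (if x i ≠ 0 then (1 : ℝ) else 0) := by
    intro i
    unfold rr
    by_cases h : x i = 0
    · simp [h]
    · simp [h]; norm_num
  simp only [h1, Finset.sum_sub_distrib, ← Finset.mul_sum, Finset.sum_const, Nat.card_Ico,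
    Finset.sum_ite, Finset.sum_const_zero, add_zero, nsmul_eq_mul, mul_one]
  have h2 : 2 ^ (n + 1) - 2 ^ n = 2 ^ n := by rw [pow_succ]; omega
  rw [h2]
  push_cast
  ring

lemma dn_add_le (n : ℕ) (x y : C2) : dn n (x + y) ≤ dn n x + dn n y := by
  unfold dn
  rw [← Finset.card_union_add_card_inter]
  refine le_trans (Finset.card_le_card ?_) (Nat.le_add_right _ _)
  intro i hi
  simp only [Finset.mem_filter, Finset.mem_union, Pi.add_apply] at hi ⊢
  by_cases hx : x i = 0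
  · right
    refine ⟨hi.1, ?_⟩
    have := hi.2
    simpa [hx] using this
  · left
    exact ⟨hi.1, hx⟩

/-- The points that have asymptotic density one half on the blocks. -/
def WW : Set C2 := {x | ∀ k : ℕ, ∀ᶠ n in atTop, (k : ℝ) * |Sn n x| ≤ 2 ^ n}

/-- The points that have density zero on the blocks. -/
def HH : Set C2 := {x | ∀ k : ℕ, ∀ᶠ n in atTop, k * dn n x ≤ 2 ^ n}

lemma HH_add {x y : C2} (hx : x ∈ HH) (hy : y ∈ HH) : x + y ∈ HH := by
  intro k
  filter_upwards [hx (2 * k), hy (2 * k)] with n h1 h2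
  have h3 := dn_add_le n x y
  have h4 : k * dn n (x + y) ≤ k * (dn n x + dn n y) := Nat.mul_le_mul_left _ h3
  have h5 : 2 * (k * dn n (x + y)) ≤ 2 * 2 ^ n := by nlinarith
  omega

/-- Almost inclusion. -/
def asub (x y : C2) : Prop := {i | x i ≠ 0 ∧ y i = 0}.Finite

lemma asub_refl (x : C2) : asub x x := by
  have : {i | x i ≠ 0 ∧ x i = 0} = (∅ : Set ℕ) := by
    ext i; simp
  unfold asub
  rw [this]
  exact finite_empty

lemma asub_trans {x y z : C2} (h : asub x y) (h' : asub y z) : asub x z := by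
  refine (Set.Finite.union h h').subset fun i hi => ?_
  by_cases hy : y i = 0
  · exact Or.inl ⟨hi.1, hy⟩
  · exact Or.inr ⟨hy, hi.2⟩

lemma asub_antisymm {x y : C2} (h : asub x y) (h' : asub y x) : y ∈ cls x := by
  rw [mem_cls_iff]
  refine (Set.Finite.union h h').subset fun i hi => ?_
  by_cases hx : x i = 0
  · have hy : y i ≠ 0 := fun h => hi (hx.trans h.symm)
    exact Or.inr ⟨hy, hx⟩
  · by_cases hy : y i = 0
    · exact Or.inl ⟨hx, hy⟩
    · exfalso
      apply hi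
      have : ∀ a b : ZMod 2, a ≠ 0 → b ≠ 0 → a = b := by decide
      exact this _ _ hx hy

lemma eventually_block {P : ℕ → Prop} (h : {i | P i}.Finite) :
    ∀ᶠ n in atTop, ∀ i ∈ Finset.Ico (2 ^ n) (2 ^ (n + 1)), ¬ P i := by
  obtain ⟨b, hb⟩ := h.bddAbove
  refine eventually_atTop.2 ⟨b + 1, fun n hn i hi hP => ?_⟩
  have h1 := hb hP
  have h2 := (Finset.mem_Ico.1 hi).1
  have h3 : n < 2 ^ n := Nat.lt_two_pow_self
  omega

/-- Almost comparable points of density one half differ by a point of density zero. -/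
lemma asub_HH {x y : C2} (hx : x ∈ WW) (hy : y ∈ WW) (h : asub x y) : x + y ∈ HH := by
  intro k
  filter_upwards [hx k, hy k, eventually_block h] with n h1 h2 h3
  have h4 : dn n (x + y) + dn n x = dn n y := by
    unfold dn
    rw [← Finset.card_union_of_disjoint]
    · congr 1
      ext i
      simp only [Finset.mem_union, Finset.mem_filter, Pi.add_apply]
      constructor
      · rintro (⟨hi, h⟩ | ⟨hi, h⟩)
        · refine ⟨hi, fun hy0 => ?_⟩
          rw [hy0, add_zero] at h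
          exact h3 i hi ⟨h, hy0⟩
        · exact ⟨hi, fun hy0 => h3 i hi ⟨h, hy0⟩⟩
      · rintro ⟨hi, h⟩
        by_cases hx0 : x i = 0
        · left; exact ⟨hi, by simpa [hx0] using h⟩
        · right; exact ⟨hi, hx0⟩
    · rw [Finset.disjoint_left]
      intro i hi hi'
      simp only [Finset.mem_filter, Pi.add_apply] at hi hi'
      have hy0 : y i ≠ 0 := fun hy0 => h3 i hi.1 ⟨hi'.2, hy0⟩
      have : ∀ a b : ZMod 2, a ≠ 0 → b ≠ 0 → a + b = 0 := by decide
      exact hi.2 (this _ _ hi'.2 hy0)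
  rw [Sn_eq] at h1 h2
  have h5 : (dn n (x + y) : ℝ) + dn n x = dn n y := by exact_mod_cast h4
  have h6 : 2 * (dn n (x + y) : ℝ) = (2 ^ n - 2 * (dn n x : ℝ)) - (2 ^ n - 2 * (dn n y : ℝ)) := by
    linarith
  have h7 : (2 : ℝ) ^ n - 2 * (dn n x : ℝ) - (2 ^ n - 2 * (dn n y : ℝ)) ≤
      |2 ^ n - 2 * (dn n x : ℝ)| + |2 ^ n - 2 * (dn n y : ℝ)| := by
    have a1 := le_abs_self ((2 : ℝ) ^ n - 2 * (dn n x : ℝ))
    have a2 := neg_abs_le ((2 : ℝ) ^ n - 2 * (dn n y : ℝ))
    linarith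
  have hk : (0 : ℝ) ≤ k := Nat.cast_nonneg k
  have h8 : (k : ℝ) * (2 * (dn n (x + y) : ℝ)) ≤ 2 * 2 ^ n := by
    rw [h6]
    calc (k : ℝ) * ((2 : ℝ) ^ n - 2 * (dn n x : ℝ) - (2 ^ n - 2 * (dn n y : ℝ)))
        ≤ k * (|2 ^ n - 2 * (dn n x : ℝ)| + |2 ^ n - 2 * (dn n y : ℝ)|) :=
          mul_le_mul_of_nonneg_left h7 hk
      _ ≤ 2 * 2 ^ n := by rw [mul_add]; linarith
  have h9 : (k : ℝ) * (dn n (x + y) : ℝ) ≤ 2 ^ n := by linarith
  exact_mod_cast h9

/-! ### The law of large numbers on blocks -/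

lemma continuous_rr (i : ℕ) : Continuous (rr i) := by
  have : Continuous (fun a : ZMod 2 => if a = 0 then (1 : ℝ) else -1) :=
    continuous_of_discreteTopology
  exact this.comp (continuous_apply i)

lemma continuous_Sn (n : ℕ) : Continuous (Sn n) :=
  continuous_finset_sum _ fun i _ => continuous_rr i

lemma integrable_of_cont {f : C2 → ℝ} (hf : Continuous f) : Integrable f μ :=
  hf.integrable_of_hasCompactSupport (HasCompactSupport.of_compactSpace f)

lemma integral_rr {i j : ℕ} (h : i ≠ j) : ∫ x, rr i x * rr j x ∂μ = 0 := by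
  have h1 := integral_add_right_eq_self (μ := μ) (fun x => rr i x * rr j x) (flp {i})
  have h2 : ∀ x : C2, rr i (x + flp {i}) * rr j (x + flp {i}) = -(rr i x * rr j x) := by
    intro x
    have e1 : rr i (x + flp {i}) = - rr i x := by
      unfold rr
      have : (x + flp {i}) i = x i + 1 := by simp [flp]
      rw [this]
      have : ∀ a : ZMod 2, a = 0 ∨ a = 1 := by decide
      rcases this (x i) with h | h <;> rw [h] <;> norm_num
      decide
    have e2 : rr j (x + flp {i}) = rr j x := by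
      unfold rr
      have : (x + flp {i}) j = x j := by simp [flp, h.symm]
      rw [this]
    rw [e1, e2]; ring
  simp only [h2, integral_neg] at h1
  linarith

lemma integral_Sn_sq (n : ℕ) : ∫ x, (Sn n x) ^ 2 ∂μ = 2 ^ n * μ.real Set.univ := by
  have h1 : ∀ x, (Sn n x) ^ 2 = ∑ i ∈ Finset.Ico (2 ^ n) (2 ^ (n + 1)),
      ∑ j ∈ Finset.Ico (2 ^ n) (2 ^ (n + 1)), rr i x * rr j x := by
    intro x
    rw [sq, Sn, Finset.sum_mul_sum]
  have hint : ∀ i j, Integrable (fun x => rr i x * rr j x) μ := fun i j =>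
    integrable_of_cont ((continuous_rr i).mul (continuous_rr j))
  simp_rw [h1]
  rw [integral_finset_sum _ fun i _ => integrable_finset_sum _ fun j _ => hint i j]
  have h2 : ∀ i ∈ Finset.Ico (2 ^ n) (2 ^ (n + 1)),
      ∫ x, ∑ j ∈ Finset.Ico (2 ^ n) (2 ^ (n + 1)), rr i x * rr j x ∂μ = μ.real Set.univ := by
    intro i hi
    rw [integral_finset_sum _ fun j _ => hint i j, Finset.sum_eq_single i]
    · have : ∀ x, rr i x * rr i x = 1 := by
        intro x
        unfold rr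
        split_ifs <;> norm_num
      simp [this]
    · intro j _ hj
      exact integral_rr hj.symm
    · intro h
      exact absurd hi h
  rw [Finset.sum_congr rfl h2, Finset.sum_const, Nat.card_Ico, nsmul_eq_mul]
  have h3 : 2 ^ (n + 1) - 2 ^ n = 2 ^ n := by rw [pow_succ]; omega
  rw [h3]
  push_cast
  rfl

lemma cheb (k n : ℕ) : μ {x | ¬ ((k : ℝ) * |Sn n x| ≤ 2 ^ n)} ≤
    ENNReal.ofReal ((k : ℝ) ^ 2 * μ.real Set.univ * (1 / 2) ^ n) := by
  have h0 : {x | ¬ ((k : ℝ) * |Sn n x| ≤ 2 ^ n)} ⊆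
      {x | (4 : ℝ) ^ n ≤ (k : ℝ) ^ 2 * (Sn n x) ^ 2} := by
    intro x hx
    have hx' : (2 : ℝ) ^ n < (k : ℝ) * |Sn n x| := not_le.1 hx
    have h1 : ((2 : ℝ) ^ n) ^ 2 ≤ ((k : ℝ) * |Sn n x|) ^ 2 :=
      pow_le_pow_left₀ (by positivity) hx'.le 2
    rw [mul_pow, sq_abs, ← pow_mul, mul_comm n 2, pow_mul] at h1
    norm_num at h1
    exact h1
  have hint : Integrable (fun x => (k : ℝ) ^ 2 * (Sn n x) ^ 2) μ :=
    integrable_of_cont (continuous_const.mul ((continuous_Sn n).pow 2))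
  have h1 := mul_meas_ge_le_integral_of_nonneg (μ := μ)
    (f := fun x => (k : ℝ) ^ 2 * (Sn n x) ^ 2)
    (Eventually.of_forall fun x => by positivity) hint ((4 : ℝ) ^ n)
  rw [integral_const_mul, integral_Sn_sq] at h1
  have h2 : μ.real {x | (4 : ℝ) ^ n ≤ (k : ℝ) ^ 2 * (Sn n x) ^ 2} ≤
      (k : ℝ) ^ 2 * μ.real Set.univ * (1 / 2) ^ n := by
    have h4 : (0 : ℝ) < 4 ^ n := by positivity
    have h5 : (4 : ℝ) ^ n = 2 ^ n * 2 ^ n := by
      rw [← mul_pow]; norm_num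
    have h6 : (2 : ℝ) ^ n * (1 / 2) ^ n = 1 := by
      rw [← mul_pow]; norm_num
    have h7 : (4 : ℝ) ^ n * ((k : ℝ) ^ 2 * μ.real Set.univ * (1 / 2) ^ n) =
        (k : ℝ) ^ 2 * (2 ^ n * μ.real Set.univ) := by
      rw [h5]
      calc (2 : ℝ) ^ n * 2 ^ n * ((k : ℝ) ^ 2 * μ.real Set.univ * (1 / 2) ^ n)
          = (k : ℝ) ^ 2 * (2 ^ n * μ.real Set.univ) * (2 ^ n * (1 / 2) ^ n) := by ring
        _ = (k : ℝ) ^ 2 * (2 ^ n * μ.real Set.univ) := by rw [h6, mul_one]
    rw [← h7] at h1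
    exact le_of_mul_le_mul_left h1 h4
  calc μ {x | ¬ ((k : ℝ) * |Sn n x| ≤ 2 ^ n)} ≤ μ {x | (4 : ℝ) ^ n ≤ (k : ℝ) ^ 2 * (Sn n x) ^ 2} :=
        measure_mono h0
    _ = ENNReal.ofReal (μ.real {x | (4 : ℝ) ^ n ≤ (k : ℝ) ^ 2 * (Sn n x) ^ 2}) := by
        rw [ofReal_measureReal]
    _ ≤ _ := ENNReal.ofReal_le_ofReal h2

lemma measure_WW_compl : μ WWᶜ = 0 := by
  have h1 : WWᶜ ⊆ ⋃ k : ℕ, {x | ∃ᶠ n in atTop, ¬ ((k : ℝ) * |Sn n x| ≤ 2 ^ n)} := by
    intro x hx
    have hx' : ¬ ∀ k : ℕ, ∀ᶠ n in atTop, (k : ℝ) * |Sn n x| ≤ 2 ^ n := hx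
    push Not at hx'
    obtain ⟨k, hk⟩ := hx'
    refine mem_iUnion.2 ⟨k, ?_⟩
    change ∃ᶠ n in atTop, ¬ ((k : ℝ) * |Sn n x| ≤ 2 ^ n)
    simpa [not_eventually] using hk
  refine measure_mono_null h1 (measure_iUnion_null fun k => ?_)
  refine measure_setOf_frequently_eq_zero ?_
  refine ne_top_of_le_ne_top ?_ (ENNReal.tsum_le_tsum fun n => cheb k n)
  have hs : Summable (fun n : ℕ => (k : ℝ) ^ 2 * μ.real Set.univ * (1 / 2) ^ n) :=
    (summable_geometric_of_lt_one (by norm_num) (by norm_num)).mul_left _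
  exact hs.tsum_ofReal_ne_top

end Pool.Agent.Q304.SH
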