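import Pool.Agent.Q304.SH.Base

/-!
Existence of the generic sequence of points.
-/

open Set Cardinal Topology Filter

namespace Pool.Agent.Q304.SH

open Pool.Agent.Q304.FP (Rel)

lemma biuniq_rel (c : ℕ → C2 × C2) : Biuniq (fun x y => Rel c x y) :=
  ⟨fun _ _ _ h h' => h.unique h', fun _ _ _ h h' => h.unique' h'⟩

lemma mk_borel : #{S : Set C2 // MeasurableSet S ∧ ¬ S.Countable} ≤ 𝔠 := by
  obtain ⟨b, hbc, hb⟩ := (inferInstance : MeasurableSpace.CountablyGenerated C2).isCountablyGenerated
  have h1 : #{t : Set C2 | MeasurableSet t} ≤ 𝔠 := by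
    have := MeasurableSpace.cardinal_measurableSet_le_continuum (s := b)
      ((hbc.le_aleph0).trans aleph0_le_continuum)
    rw [← hb] at this
    exact this
  refine le_trans ?_ h1
  refine mk_le_of_injective (f := fun S : {S : Set C2 // MeasurableSet S ∧ ¬ S.Countable} =>
    (⟨S.1, S.2.1⟩ : {t : Set C2 | MeasurableSet t})) ?_
  intro S S' h
  apply Subtype.ext
  have := congrArg Subtype.val h
  exact this

lemma mk_of_not_countable {S : Set C2} (hS : MeasurableSet S) (hc : ¬ S.Countable) :
    𝔠 ≤ #S := by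
  have := hS.standardBorel
  have hR : ¬ Countable ℝ := by
    rw [← Cardinal.mk_le_aleph0_iff, Cardinal.mk_real]
    exact not_le.2 aleph0_lt_continuum
  have e := PolishSpace.measurableEquivOfNotCountable (α := S) (β := ℝ)
    (fun h => hc (Set.countable_coe_iff.1 h)) hR
  rw [Cardinal.mk_congr e.toEquiv, Cardinal.mk_real]

lemma not_countable_univ : ¬ (Set.univ : Set C2).Countable := by
  intro h
  have h1 := h.le_aleph0
  rw [mk_univ] at h1
  have h2 : #C2 = 𝔠 := by simp [C2]
  rw [h2] at h1
  exact absurd h1 (not_le.2 aleph0_lt_continuum)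

theorem exists_pts : Nonempty Pts := by
  classical
  let Θ := (𝔠 : Cardinal.{0}).ord.ToType
  have hΘ : ∀ θ : Θ, #(Iio θ) < 𝔠 := fun θ => mk_Iio_toType_ord_lt θ
  have hΘc : #Θ = 𝔠 := by simp [Θ]
  have hIic : ∀ θ : Θ, #(Iic θ) < 𝔠 := by
    intro θ
    rw [← Iio_insert]
    refine (mk_insert_le).trans_lt (add_lt_of_lt aleph0_lt_continuum.le (hΘ θ) ?_)
    exact one_lt_aleph0.trans aleph0_lt_continuum
  -- codes
  have hcode : #(ℕ → C2 × C2) = #Θ := by rw [hΘc]; simp [C2]
  obtain ⟨e⟩ := Cardinal.eq.1 hcode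
  -- sets
  let 𝒯 := {S : Set C2 // MeasurableSet S ∧ ¬ S.Countable}
  have h𝒯 : #(𝒯 × Θ) ≤ #Θ := by
    rw [mk_prod, hΘc]
    simp only [lift_id]
    exact (mul_le_mul_left mk_borel 𝔠).trans (by simp)
  obtain ⟨j⟩ := (Cardinal.le_def _ _).1 h𝒯
  have hΘne : Nonempty Θ := by
    rw [← mk_ne_zero_iff, hΘc]
    exact (aleph0_pos.trans aleph0_lt_continuum).ne'
  have : Nonempty (𝒯 × Θ) := ⟨⟨⟨Set.univ, MeasurableSet.univ, not_countable_univ⟩, hΘne.some⟩⟩
  have hπ : Function.Surjective (Function.invFun j) := Function.invFun_surjective j.injective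
  set π : Θ → 𝒯 × Θ := Function.invFun j with hπd
  obtain ⟨a, ha⟩ := exists_generic (G := C2) (Θ := Θ) hΘ cls_countable
    (fun x y h => cls_symm x y h) (R := fun s x y => Rel (e.symm s) x y)
    (fun s => biuniq_rel (e.symm s)) (Q := ∅)
    (by simpa using aleph0_pos.trans aleph0_lt_continuum)
    (T := fun α => (π α).1.1) (fun α => mk_of_not_countable (π α).1.2.1 (π α).1.2.2)
  refine ⟨{ Θ := Θ, a := a, code := ?_, disj := ?_, big := ?_, cof := ?_ }⟩
  · intro c
    refine ⟨e c, fun α β hαβ hs x hx y hy => ?_⟩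
    have hc : e.symm (e c) = c := by simp
    rcases lt_or_gt_of_ne hαβ with h | h
    · have hs' : e c ≤ β := by
        rcases hs with h1 | h1
        · exact h1.trans h.le
        · exact h1
      have := (generic_pair (fun α => (ha α).2) hs' hy h hx).2
      simpa only [hc] using this
    · have hs' : e c ≤ α := by
        rcases hs with h1 | h1
        · exact h1
        · exact h1.trans h.le
      have := (generic_pair (fun α => (ha α).2) hs' hx h hy).1
      simpa only [hc] using this
  · intro α β x hx hy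
    exact generic_disj (fun α => (ha α).2) hx hy
  · intro S hS hSc θ
    by_contra hcon
    push Not at hcon
    have hch : ∀ γ : Θ, ∃ α, π α = (⟨⟨S, hS, hSc⟩, γ⟩ : 𝒯 × Θ) := fun γ => hπ _
    choose φ hφ using hch
    have hinj : Function.Injective φ := by
      intro γ γ' h
      have := (hφ γ).symm.trans ((congrArg π h).trans (hφ γ'))
      exact (Prod.ext_iff.1 this).2
    have hle : ∀ γ, φ γ ∈ Iic θ := by
      intro γ
      by_contra h
      rw [mem_Iic, not_le] at h
      have h1 := (ha (φ γ)).1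
      simp only [hφ γ] at h1
      exact hcon _ h h1
    have h1 : #Θ ≤ #(Iic θ) := mk_le_of_injective (f := fun γ => (⟨φ γ, hle γ⟩ : Iic θ))
      (fun γ γ' h => hinj (congrArg Subtype.val h))
    rw [hΘc] at h1
    exact absurd h1 (not_le.2 (hIic θ))
  · intro f
    by_contra hcon
    push Not at hcon
    have h1 : (⋃ n, Iio (f n)) = Set.univ := by
      rw [eq_univ_iff_forall]
      intro θ
      obtain ⟨n, hn⟩ := hcon θ
      exact mem_iUnion.2 ⟨n, hn⟩
    have h2 : #(⋃ n, Iio (f n)) < 𝔠 := by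
      refine (mk_iUnion_le _).trans_lt ?_
      refine mul_lt_of_lt aleph0_lt_continuum.le ?_ ?_
      · simpa using aleph0_lt_continuum
      · refine iSup_lt_of_lt_cof_ord ?_ (fun n => hΘ (f n))
        have := Cardinal.lt_cof_ord_power (a := ℵ₀) (b := 2) le_rfl (by norm_num)
        rw [two_power_aleph0] at this
        simpa using this
    rw [h1, mk_univ, hΘc] at h2
    exact lt_irrefl _ h2

end Pool.Agent.Q304.SH
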