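import Mathlib

/-!
A generic sequence of points of length continuum: every new point is chosen in a prescribed big set,
outside the (small) set of points that are related to the earlier points by one of the earlier
bi-single-valued relations.
-/

open Set Cardinal

namespace Pool.Agent.Q304.SH

/-- A relation that is single-valued in both directions. -/
structure Biuniq {G : Type} (R : G → G → Prop) : Prop where
  r : ∀ x y y', R x y → R x y' → y = y'
  l : ∀ x x' y, R x y → R x' y → x = x'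

lemma small_biUnion {G ι : Type} {A : Set ι} (hA : #A < 𝔠) {f : ι → Set G}
    (hf : ∀ i ∈ A, (f i).Countable) : #(⋃ i ∈ A, f i) < 𝔠 := by
  rw [biUnion_eq_iUnion]
  refine (mk_iUnion_le _).trans_lt ?_
  refine mul_lt_of_lt aleph0_lt_continuum.le hA ?_
  refine lt_of_le_of_lt ?_ aleph0_lt_continuum
  refine ciSup_le' fun i => ?_
  exact (hf i i.2).le_aleph0

lemma small_union {G : Type} {A B : Set G} (hA : #A < 𝔠) (hB : #B < 𝔠) :
    #(A ∪ B : Set G) < 𝔠 :=
  (mk_union_le A B).trans_lt (add_lt_of_lt aleph0_lt_continuum.le hA hB)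

lemma small_prod {G G' : Type} {A : Set G} {B : Set G'} (hA : #A < 𝔠) (hB : #B < 𝔠) :
    #(A ×ˢ B : Set (G × G')) < 𝔠 := by
  rw [mk_setProd]
  simpa using mul_lt_of_lt aleph0_lt_continuum.le hA hB

lemma small_mono {G : Type} {A B : Set G} (h : A ⊆ B) (hB : #B < 𝔠) : #A < 𝔠 :=
  (mk_le_mk_of_subset h).trans_lt hB

section
variable {G Θ : Type} [LinearOrder Θ] [WellFoundedLT Θ]

/-- The points constructed before stage `α`, with their classes. -/
def Wd (E : G → Set G) (Q : Set G) (f : Θ → G) (α : Θ) : Set G :=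
  (⋃ q ∈ Q, E q) ∪ ⋃ β ∈ Iio α, E (f β)

/-- The points that are forbidden at stage `α`. -/
def forb (E : G → Set G) (R : Θ → G → G → Prop) (Q : Set G) (f : Θ → G) (α : Θ) : Set G :=
  {x | ∃ z ∈ E x, z ∈ Wd E Q f α ∨ ∃ s ≤ α, ∃ w ∈ Wd E Q f α, R s z w ∨ R s w z}

omit [WellFoundedLT Θ] in
lemma small_forb (hΘ : ∀ θ : Θ, #(Iio θ) < 𝔠) {E : G → Set G} (hE : ∀ x, (E x).Countable)
    (hs : ∀ x y, y ∈ E x → x ∈ E y) {R : Θ → G → G → Prop} (hR : ∀ s, Biuniq (R s)) {Q : Set G}
    (hQ : #Q < 𝔠) (f : Θ → G) (α : Θ) : #(forb E R Q f α) < 𝔠 := by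
  have hW : #(Wd E Q f α) < 𝔠 :=
    small_union (small_biUnion hQ fun q _ => hE q) (small_biUnion (hΘ α) fun β _ => hE (f β))
  have hI : #(Iic α) < 𝔠 := by
    rw [← Iio_insert]
    refine (mk_insert_le).trans_lt (add_lt_of_lt aleph0_lt_continuum.le (hΘ α) ?_)
    exact one_lt_aleph0.trans aleph0_lt_continuum
  have hB : #(Wd E Q f α ∪ ⋃ p ∈ Iic α ×ˢ Wd E Q f α,
      ({z | R p.1 z p.2} ∪ {z | R p.1 p.2 z}) : Set G) < 𝔠 := by
    refine small_union hW (small_biUnion (small_prod hI hW) fun p _ => ?_)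
    refine Set.Countable.union (Set.Subsingleton.countable ?_) (Set.Subsingleton.countable ?_)
    · intro z hz z' hz'
      exact (hR p.1).l _ _ _ hz hz'
    · intro z hz z' hz'
      exact (hR p.1).r _ _ _ hz hz'
  refine small_mono ?_ (small_biUnion hB fun z _ => hE z)
  rintro x ⟨z, hz, h⟩
  refine mem_biUnion (x := z) ?_ (hs _ _ hz)
  rcases h with h | ⟨s, hs, w, hw, h⟩
  · exact Or.inl h
  · refine Or.inr (mem_biUnion (x := (s, w)) ⟨hs, hw⟩ ?_)
    exact h

lemma exists_generic (hΘ : ∀ θ : Θ, #(Iio θ) < 𝔠) {E : G → Set G} (hE : ∀ x, (E x).Countable)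
    (hs : ∀ x y, y ∈ E x → x ∈ E y) {R : Θ → G → G → Prop} (hR : ∀ s, Biuniq (R s)) {Q : Set G}
    (hQ : #Q < 𝔠) {T : Θ → Set G} (hT : ∀ α, 𝔠 ≤ #(T α)) :
    ∃ a : Θ → G, ∀ α, a α ∈ T α ∧ a α ∉ forb E R Q a α := by
  classical
  have hne : ∀ (f : Θ → G) (α : Θ), ∃ x, x ∈ T α ∧ x ∉ forb E R Q f α := by
    intro f α
    by_contra hcon
    push Not at hcon
    exact absurd (small_mono hcon (small_forb hΘ hE hs hR hQ f α)) (not_lt.2 (hT α))
  by_cases hΘe : Nonempty Θ
  · obtain ⟨θ₀⟩ := hΘe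
    have hG : Nonempty G := by
      by_contra h
      rw [not_nonempty_iff] at h
      have h1 := hT θ₀
      have h2 : #(T θ₀) = 0 := by
        rw [mk_eq_zero_iff]; infer_instance
      rw [h2] at h1
      exact absurd h1 (not_le.2 (aleph0_pos.trans aleph0_lt_continuum))
    obtain ⟨g₀⟩ := hG
    let ext : (α : Θ) → ((β : Θ) → β < α → G) → Θ → G := fun α f β =>
      if h : β < α then f β h else g₀
    let F : (α : Θ) → ((β : Θ) → β < α → G) → G := fun α f => (hne (ext α f) α).choose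
    let a : Θ → G := (wellFounded_lt (α := Θ)).fix F
    have ha : ∀ α, a α = F α (fun β _ => a β) := fun α => WellFounded.fix_eq _ _ _
    refine ⟨a, fun α => ?_⟩
    have h := (hne (ext α (fun β _ => a β)) α).choose_spec
    have h1 : a α = (hne (ext α (fun β _ => a β)) α).choose := ha α
    rw [← h1] at h
    have hW : Wd E Q (ext α (fun β _ => a β)) α = Wd E Q a α := by
      unfold Wd
      congr 1
      refine iUnion₂_congr fun β hβ => ?_
      have : ext α (fun β _ => a β) β = a β := by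
        simp only [ext]
        exact dif_pos (mem_Iio.1 hβ)
      rw [this]
    have hF : forb E R Q (ext α (fun β _ => a β)) α = forb E R Q a α := by
      unfold forb
      rw [hW]
    rw [hF] at h
    exact h
  · exact ⟨fun θ => absurd ⟨θ⟩ hΘe, fun θ => absurd ⟨θ⟩ hΘe⟩

omit [WellFoundedLT Θ] in
/-- Conclusion in usable form: points of the classes of `a α` and `a β`, `β < α`, are not related
by `R s`, `s ≤ α`. -/
lemma generic_pair {E : G → Set G} {R : Θ → G → G → Prop} {Q : Set G} {a : Θ → G}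
    (ha : ∀ α, a α ∉ forb E R Q a α) {α β s : Θ} (hsα : s ≤ α) {x y : G} (hx : x ∈ E (a α))
    (hβ : β < α) (hy : y ∈ E (a β)) : ¬ R s x y ∧ ¬ R s y x := by
  have hyW : y ∈ Wd E Q a α := Or.inr (mem_biUnion hβ hy)
  constructor
  · intro h
    exact ha α ⟨x, hx, Or.inr ⟨s, hsα, y, hyW, Or.inl h⟩⟩
  · intro h
    exact ha α ⟨x, hx, Or.inr ⟨s, hsα, y, hyW, Or.inr h⟩⟩

omit [WellFoundedLT Θ] in
/-- The classes are pairwise disjoint. -/
lemma generic_disj {E : G → Set G} {R : Θ → G → G → Prop} {Q : Set G} {a : Θ → G}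
    (ha : ∀ α, a α ∉ forb E R Q a α) {α β : Θ} {x : G} (hx : x ∈ E (a α))
    (hy : x ∈ E (a β)) : α = β := by
  have key : ∀ α β : Θ, x ∈ E (a α) → β < α → x ∉ E (a β) := by
    intro α β hx hβ hy
    exact ha α ⟨x, hx, Or.inl (Or.inr (mem_biUnion hβ hy))⟩
  rcases lt_trichotomy α β with h | h | h
  · exact absurd hx (key β α hy h)
  · exact h
  · exact absurd hy (key α β hx h)

end

end Pool.Agent.Q304.SH
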