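import Pool.Agent.Q304.SH.Anti

/-!
A semifilter which is not strongly homogeneous.
-/

open Set Cardinal Topology Filter MeasureTheory

namespace Pool.Agent.Q304.SH

open Pool.Agent.Q304.FP (Rel)

/-- The set of points that an embedding moves inside their class has measure at most the measure of
any set containing the image. -/
lemma measure_shift {Y : Set C2} {f : Y → C2} (hf : IsInducing f) (hfinj : Function.Injective f)
    {C : Set C2} (hfC : ∀ τ, f τ ∈ C) : μ {y | ∃ hy : y ∈ Y, f ⟨y, hy⟩ ∈ cls y} ≤ μ C := by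
  let F : Finset ℕ → Set C2 := fun t => {x | ∃ hx : x ∈ Y, f ⟨x, hx⟩ = x + flp t}
  let G : Finset ℕ → Set C2 := fun t => {z | ∃ τ : Y, f τ = z ∧ f τ = τ + flp t}
  have hFG : ∀ t, F t = (fun x => x + flp t) ⁻¹' (G t) := by
    intro t
    ext x
    constructor
    · rintro ⟨hx, h⟩
      exact ⟨⟨x, hx⟩, h, h⟩
    · rintro ⟨τ, h1, h2⟩
      have h3 : (τ : C2) = x := by
        have := h2.symm.trans h1
        exact add_right_cancel this
      refine ⟨h3 ▸ τ.2, ?_⟩
      have h4 : (⟨x, h3 ▸ τ.2⟩ : Y) = τ := Subtype.ext h3.symm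
      rw [h4]
      exact h1
  have hμFG : ∀ t, μ (F t) = μ (G t) := by
    intro t
    rw [hFG t]
    exact measure_preimage_add_right μ (flp t) (G t)
  have hcover : {y | ∃ hy : y ∈ Y, f ⟨y, hy⟩ ∈ cls y} ⊆ ⋃ t, F t := by
    rintro y ⟨hy, t, ht⟩
    exact mem_iUnion.2 ⟨t, hy, ht.symm⟩
  have hL : ∀ t, ∃ L : Set C2, IsClosed L ∧ f ⁻¹' L = {τ | f τ = τ + flp t} := by
    intro t
    have hcl : IsClosed {τ : Y | f τ = τ + flp t} :=
      isClosed_eq hf.continuous (continuous_subtype_val.add continuous_const)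
    exact (hf.isClosed_iff).1 hcl
  choose L hLc hLf using hL
  have hGL : ∀ t, G t = L t ∩ range f := by
    intro t
    ext z
    constructor
    · rintro ⟨τ, h1, h2⟩
      refine ⟨?_, τ, h1⟩
      have : τ ∈ f ⁻¹' L t := by rw [hLf]; exact h2
      rw [← h1]; exact this
    · rintro ⟨h1, τ, rfl⟩
      have : τ ∈ f ⁻¹' L t := h1
      rw [hLf] at this
      exact ⟨τ, rfl, this⟩
  have hGdisj : ∀ t t', t ≠ t' → G t ∩ G t' = ∅ := by
    intro t t' htt
    rw [Set.eq_empty_iff_forall_notMem]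
    rintro z ⟨⟨τ, h1, h2⟩, ⟨τ', h3, h4⟩⟩
    have h5 : τ = τ' := hfinj (h1.trans h3.symm)
    subst h5
    have h6 := h2.symm.trans h4
    exact htt (flp_inj (add_left_cancel h6))
  have hsum : ∑' t, μ (G t) ≤ μ C := by
    have h1 : ∀ t, μ (G t) = (μ.restrict (range f)) (L t) := by
      intro t
      rw [Measure.restrict_apply (hLc t).measurableSet, hGL t]
    calc ∑' t, μ (G t) = ∑' t, (μ.restrict (range f)) (L t) := tsum_congr h1
      _ = (μ.restrict (range f)) (⋃ t, L t) := by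
          rw [measure_iUnion₀]
          · intro t t' htt
            change (μ.restrict (range f)) (L t ∩ L t') = 0
            rw [Measure.restrict_apply ((hLc t).inter (hLc t')).measurableSet]
            have : L t ∩ L t' ∩ range f = G t ∩ G t' := by
              rw [hGL t, hGL t']
              ext z; simp only [mem_inter_iff]; tauto
            rw [this, hGdisj t t' htt]
            simp
          · exact fun t => (hLc t).measurableSet.nullMeasurableSet
      _ ≤ (μ.restrict (range f)) Set.univ := measure_mono (subset_univ _)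
      _ = μ (range f) := by rw [Measure.restrict_apply MeasurableSet.univ]; simp
      _ ≤ μ C := measure_mono (by rintro _ ⟨τ, rfl⟩; exact hfC τ)
  calc μ {y | ∃ hy : y ∈ Y, f ⟨y, hy⟩ ∈ cls y} ≤ μ (⋃ t, F t) := measure_mono hcover
    _ ≤ ∑' t, μ (F t) := measure_iUnion_le _
    _ = ∑' t, μ (G t) := tsum_congr hμFG
    _ ≤ μ C := hsum

/-- A selection of the relation `Rel c` is an embedding. -/
lemma inducing_of_rel {c : ℕ → C2 × C2} {Y : Set C2} {f : Y → C2}
    (h : ∀ τ, Rel c (f τ) (τ : C2)) : IsInducing f := by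
  rw [isInducing_iff_nhds]
  intro τ
  apply le_antisymm
  · rw [← map_le_iff_le_comap]
    intro U hU
    obtain ⟨U', hU', hU'c, hU'U⟩ := exists_mem_nhds_isClosed_subset hU
    obtain ⟨V, hV, hVU⟩ := (h τ).2.2 U' hU'
    rw [mem_map, nhds_subtype_eq_comap, mem_comap]
    refine ⟨interior V, interior_mem_nhds.2 hV, fun τ' hτ' => hU'U ?_⟩
    by_contra hcon
    obtain ⟨V', hV', hVU'⟩ := (h τ').2.2 U'ᶜ (hU'c.isOpen_compl.mem_nhds hcon)
    obtain ⟨n, hn⟩ := (h τ').2.1 (interior V ∩ V') (inter_mem (isOpen_interior.mem_nhds hτ') hV')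
    exact hVU' n hn.2 (hVU n (interior_subset hn.1))
  · intro V hV
    rw [nhds_subtype_eq_comap, mem_comap] at hV
    obtain ⟨V₀, hV₀, hV₀V⟩ := hV
    obtain ⟨V', hV', hV'c, hV'V⟩ := exists_mem_nhds_isClosed_subset hV₀
    obtain ⟨U, hU, hUV⟩ := (h τ).1.2 V' hV'
    rw [mem_comap]
    refine ⟨interior U, interior_mem_nhds.2 hU, fun τ' hτ' => hV₀V (hV'V ?_)⟩
    by_contra hcon
    obtain ⟨U', hU', hUV'⟩ := (h τ').1.2 V'ᶜ (hV'c.isOpen_compl.mem_nhds hcon)
    obtain ⟨n, hn⟩ := (h τ').1.1 (interior U ∩ U') (inter_mem (isOpen_interior.mem_nhds hτ') hU')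
    exact hUV' n hn.2 (hUV n (interior_subset hn.1))

/-- The clopen half. -/
def halfC : Set C2 := {x | x 0 ≠ 0}

lemma isClopen_halfC : IsClopen halfC := by
  have : halfC = (fun x : C2 => x 0) ⁻¹' {0}ᶜ := by
    ext x; rfl
  rw [this]
  exact (isClopen_discrete _).preimage (continuous_apply 0)

lemma measure_halfC : μ halfC < μ Set.univ := by
  have h1 : μ halfCᶜ = μ halfC := by
    have : halfCᶜ = (fun x => x + flp {0}) ⁻¹' halfC := by
      ext x
      change ¬ (x 0 ≠ 0) ↔ (x + flp {0}) 0 ≠ 0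
      have h2 : (x + flp {0}) 0 = x 0 + 1 := by simp [flp]
      rw [h2]
      have : ∀ a : ZMod 2, ¬ (a ≠ 0) ↔ a + 1 ≠ 0 := by decide
      exact this _
    rw [this]
    exact measure_preimage_add_right μ (flp {0}) halfC
  have h2 : μ halfC + μ halfCᶜ = μ Set.univ := measure_add_measure_compl
    isClopen_halfC.2.measurableSet
  have h3 : 0 < μ (Set.univ : Set C2) := IsOpen.measure_pos μ isOpen_univ univ_nonempty
  have h4 : μ halfC ≠ ⊤ := measure_ne_top _ _
  have h5 : 0 < μ halfCᶜ := by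
    rw [h1]
    by_contra hcon
    have h6 : μ halfC = 0 := by simpa using hcon
    rw [h1, h6] at h2
    rw [← h2] at h3
    simp at h3
  rw [← h2]
  exact ENNReal.lt_add_right h4 h5.ne'

/-- The points that a code moves inside their class. -/
def badp (c : ℕ → C2 × C2) : Set C2 := {y | ∃ x ∈ halfC, Rel c x y ∧ x ∈ cls y}

lemma measure_badp (c : ℕ → C2 × C2) : μ (badp c) ≤ μ halfC := by
  classical
  let Y : Set C2 := {y | ∃ x ∈ halfC, Rel c x y}
  choose g hg hgr using fun y : Y => y.2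
  have h1 := measure_shift (Y := Y) (f := g) (inducing_of_rel hgr) (by
    intro τ τ' h
    have h2 := hgr τ
    have h3 := hgr τ'
    rw [← h] at h3
    exact Subtype.ext (h2.unique h3)) hg
  refine (measure_mono ?_).trans h1
  rintro y ⟨x, hx, hr, hc⟩
  have hy : y ∈ Y := ⟨x, hx, hr⟩
  refine ⟨hy, ?_⟩
  have : g ⟨y, hy⟩ = x := (hgr ⟨y, hy⟩).unique' hr
  rw [this]
  exact hc

/-- Invariant of the construction. -/
def Inv (b : TH → C2) (A N : Set C2) (J : Set TH) : Prop :=
  (∀ a ∈ A, ∀ n ∈ N, ¬ asub a n) ∧ (∀ a ∈ A, ∀ j ∈ J, ¬ asub a (b j)) ∧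
    ∀ n ∈ N, ∀ j ∈ J, ¬ asub (b j) n

/-- The pair `(A, N)` kills the code `c`. -/
def Kill (c : ℕ → C2 × C2) (A N : Set C2) : Prop :=
  ∃ y, (y ∈ A ∧ ¬ ∃ x ∈ halfC, Rel c x y) ∨
    ∃ x ∈ halfC, Rel c x y ∧ ((x ∈ A ∧ y ∈ N) ∨ (x ∈ N ∧ y ∈ A))

lemma Kill.mono {c : ℕ → C2 × C2} {A N A' N' : Set C2} (h : Kill c A N) (hA : A ⊆ A')
    (hN : N ⊆ N') : Kill c A' N' := by
  obtain ⟨y, ⟨h1, h2⟩ | ⟨x, hx, hr, ⟨h1, h2⟩ | ⟨h1, h2⟩⟩⟩ := h
  · exact ⟨y, Or.inl ⟨hA h1, h2⟩⟩
  · exact ⟨y, Or.inr ⟨x, hx, hr, Or.inl ⟨hA h1, hN h2⟩⟩⟩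
  · exact ⟨y, Or.inr ⟨x, hx, hr, Or.inr ⟨hN h1, hA h2⟩⟩⟩

open Classical in
lemma step_semi {b : TH → C2} (hb : ∀ α β, α ≠ β → ¬ asub (b α) (b β)) {A N : Set C2}
    {J : Set TH} (hI : Inv b A N J) (c : ℕ → C2 × C2) {r : TH} (hr : r ∈ J)
    (hrb : b r ∉ badp c) :
    ∃ (A' N' : Set C2) (F : Finset TH), Inv b (A ∪ A') (N ∪ N') (J \ ↑F) ∧ Kill c A' N' := by
  obtain ⟨i1, i2, i3⟩ := hI
  by_cases h1 : ∃ x ∈ halfC, Rel c x (b r)
  · obtain ⟨x, hx, hrel⟩ := h1
    have hxc : x ∉ cls (b r) := fun h => hrb ⟨x, hx, hrel, h⟩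
    let F : Finset TH := if h : ∃ j, asub x (b j) ∧ asub (b j) x then {r, h.choose} else {r}
    have hrF : r ∈ F := by
      simp only [F]
      split_ifs <;> simp
    have hF : ∀ j, j ∉ F → ¬ (asub x (b j) ∧ asub (b j) x) := by
      intro j hj h
      have hex : ∃ j, asub x (b j) ∧ asub (b j) x := ⟨j, h⟩
      have h2 := hex.choose_spec
      have h3 : hex.choose = j := by
        by_contra hne
        exact hb _ _ hne (asub_trans h2.2 h.1)
      apply hj
      simp only [F]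
      rw [dif_pos hex]
      simp [h3]
    have hne : ∀ j ∈ J \ (F : Set TH), j ≠ r := by
      rintro j ⟨_, hj⟩ rfl
      exact hj hrF
    by_cases hin : (∀ n ∈ N, ¬ asub x n) ∧ ¬ asub x (b r) ∧ ∀ j ∈ J \ (F : Set TH), ¬ asub x (b j)
    · obtain ⟨a1, a2, a3⟩ := hin
      refine ⟨{x}, {b r}, F, ⟨?_, ?_, ?_⟩, b r, Or.inr ⟨x, hx, hrel, Or.inl ⟨rfl, rfl⟩⟩⟩
      · rintro a (ha | rfl) n (hn | rfl)
        · exact i1 a ha n hn
        · exact i2 a ha r hr
        · exact a1 n hn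
        · exact a2
      · rintro a (ha | rfl) j hj
        · exact i2 a ha j hj.1
        · exact a3 j hj
      · rintro n (hn | rfl) j hj
        · exact i3 n hn j hj.1
        · exact hb j r (hne j hj)
    · have hout : (∀ a ∈ A, ¬ asub a x) ∧ ¬ asub (b r) x ∧
          ∀ j ∈ J \ (F : Set TH), ¬ asub (b j) x := by
        have hu : ∃ u, asub x u ∧ (u ∈ N ∨ u = b r ∨ ∃ j ∈ J \ (F : Set TH), u = b j) := by
          by_contra hcon
          push Not at hcon
          refine hin ⟨fun n hn h => (hcon n h).1 hn, fun h => (hcon _ h).2.1 rfl, ?_⟩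
          intro j hj h
          exact (hcon _ h).2.2 j hj rfl
        obtain ⟨u, hxu, hu⟩ := hu
        refine ⟨?_, ?_, ?_⟩
        · intro a ha h
          have h2 := asub_trans h hxu
          rcases hu with hu | rfl | ⟨j, hj, rfl⟩
          · exact i1 a ha u hu h2
          · exact i2 a ha r hr h2
          · exact i2 a ha j hj.1 h2
        · intro h
          have h2 := asub_trans h hxu
          rcases hu with hu | rfl | ⟨j, hj, rfl⟩
          · exact i3 u hu r hr h2
          · exact hxc (asub_antisymm h hxu)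
          · exact hb r j (hne j hj).symm h2
        · intro j hj h
          have h2 := asub_trans h hxu
          rcases hu with hu | rfl | ⟨j', hj', rfl⟩
          · exact i3 u hu j hj.1 h2
          · exact hb j r (hne j hj) h2
          · by_cases hjj : j = j'
            · subst hjj
              exact hF j hj.2 ⟨hxu, h⟩
            · exact hb j j' hjj h2
      obtain ⟨a1, a2, a3⟩ := hout
      refine ⟨{b r}, {x}, F, ⟨?_, ?_, ?_⟩, b r, Or.inr ⟨x, hx, hrel, Or.inr ⟨rfl, rfl⟩⟩⟩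
      · rintro a (ha | rfl) n (hn | rfl)
        · exact i1 a ha n hn
        · exact a1 a ha
        · exact i3 n hn r hr
        · exact a2
      · rintro a (ha | rfl) j hj
        · exact i2 a ha j hj.1
        · exact hb r j (hne j hj).symm
      · rintro n (hn | rfl) j hj
        · exact i3 n hn j hj.1
        · exact a3 j hj
  · refine ⟨{b r}, ∅, {r}, ⟨?_, ?_, ?_⟩, b r, Or.inl ⟨rfl, h1⟩⟩
    · rintro a (ha | rfl) n (hn | hn)
      · exact i1 a ha n hn
      · exact absurd hn (notMem_empty n)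
      · exact i3 n hn r hr
      · exact absurd hn (notMem_empty n)
    · rintro a (ha | rfl) j hj
      · exact i2 a ha j hj.1
      · have : j ≠ r := fun h => hj.2 (by simp [h])
        exact hb r j this.symm
    · rintro n (hn | hn) j hj
      · exact i3 n hn j hj.1
      · exact absurd hn (notMem_empty n)

theorem exists_AN : ∃ A N : Set C2, A.Nonempty ∧ (0 : C2) ∈ N ∧
    (∀ a ∈ A, ∀ n ∈ N, ¬ asub a n) ∧ ∀ c, Kill c A N := by
  classical
  obtain ⟨b, hb, hbig⟩ := exists_anti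
  have hcode : #(ℕ → C2 × C2) = #TH := by rw [mk_TH]; simp [C2]
  obtain ⟨e⟩ := Cardinal.eq.1 hcode
  let T := Set C2 × Set C2 × Finset TH
  let AA : (TH → T) → TH → Set C2 := fun f θ => {fun _ => 1} ∪ ⋃ η ∈ Iio θ, (f η).1
  let NN : (TH → T) → TH → Set C2 := fun f θ => {0} ∪ ⋃ η ∈ Iio θ, (f η).2.1
  let JJ : (TH → T) → TH → Set TH := fun f θ => {j | b j ≠ 0 ∧ ¬ asub (fun _ => 1) (b j) ∧
    ¬ asub (b j) 0 ∧ ∀ η < θ, j ∉ (f η).2.2}
  let good : (TH → T) → TH → T → Prop := fun f θ t =>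
    Inv b (AA f θ ∪ t.1) (NN f θ ∪ t.2.1) (JJ f θ \ ↑t.2.2) ∧ Kill (e.symm θ) t.1 t.2.1
  let ext : (θ : TH) → ((η : TH) → η < θ → T) → TH → T := fun θ f η =>
    if h : η < θ then f η h else (∅, ∅, ∅)
  let F : (θ : TH) → ((η : TH) → η < θ → T) → T := fun θ f =>
    if h : ∃ t : T, good (ext θ f) θ t then h.choose else (∅, ∅, ∅)
  let R : TH → T := (wellFounded_lt (α := TH)).fix F
  have hR : ∀ θ, R θ = F θ (fun η _ => R η) := fun θ => WellFounded.fix_eq _ _ _
  have hext : ∀ θ : TH, ∀ η < θ, ext θ (fun η _ => R η) η = R η := by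
    intro θ η h
    simp [ext, h]
  have hAA : ∀ θ, AA (ext θ (fun η _ => R η)) θ = AA R θ := by
    intro θ
    simp only [AA]
    congr 1
    refine iUnion₂_congr fun η hη => ?_
    rw [hext θ η hη]
  have hNN : ∀ θ, NN (ext θ (fun η _ => R η)) θ = NN R θ := by
    intro θ
    simp only [NN]
    congr 1
    refine iUnion₂_congr fun η hη => ?_
    rw [hext θ η hη]
  have hJJ : ∀ θ, JJ (ext θ (fun η _ => R η)) θ = JJ R θ := by
    intro θ
    ext j
    have h1 : (∀ η < θ, j ∉ (ext θ (fun η _ => R η) η).2.2) ↔ ∀ η < θ, j ∉ (R η).2.2 :=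
      forall₂_congr fun η hη => by rw [hext θ η hη]
    exact and_congr Iff.rfl (and_congr Iff.rfl (and_congr Iff.rfl h1))
  have hgood : ∀ θ t, good (ext θ (fun η _ => R η)) θ t ↔ good R θ t := by
    intro θ t
    simp only [good, hAA, hNN, hJJ]
  have hstep : ∀ θ, (∃ t : T, good R θ t) → good R θ (R θ) := by
    intro θ ⟨t, ht⟩
    have hex : ∃ t : T, good (ext θ (fun η _ => R η)) θ t := ⟨t, (hgood θ t).2 ht⟩
    have h1 : R θ = hex.choose := by
      rw [hR θ]
      simp only [F]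
      rw [dif_pos hex]
    rw [h1]
    exact (hgood θ _).1 hex.choose_spec
  -- basic facts
  have hone : ¬ asub (fun _ => 1 : C2) 0 := by
    intro h
    have h' : {i : ℕ | (fun _ => 1 : C2) i ≠ 0 ∧ (0 : C2) i = 0}.Finite := h
    have h2 : {i : ℕ | (fun _ => 1 : C2) i ≠ 0 ∧ (0 : C2) i = 0} = Set.univ := by
      ext i; simp
    rw [h2] at h'
    exact Set.infinite_univ h'
  -- at most one index is comparable with `1`, at most one with `0`
  have hfin : {j | ¬ (b j ≠ 0 ∧ ¬ asub (fun _ => 1) (b j) ∧ ¬ asub (b j) 0)}.Finite := by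
    have s1 : {j | b j = 0 ∨ asub (b j) 0}.Subsingleton := by
      intro j hj j' hj'
      by_contra hne
      have h1 : asub (b j) 0 := by
        rcases hj with h | h
        · rw [h]; exact asub_refl _
        · exact h
      have h2 : asub 0 (b j') := by
        have : {i | (0 : C2) i ≠ 0 ∧ b j' i = 0} = ∅ := by ext i; simp
        unfold asub; rw [this]; exact finite_empty
      exact hb _ _ hne (asub_trans h1 h2)
    have s2 : {j | asub (fun _ => 1) (b j)}.Subsingleton := by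
      intro j hj j' hj'
      by_contra hne
      have h2 : asub (b j) (fun _ => 1) := by
        have : {i | b j i ≠ 0 ∧ (fun _ => 1 : C2) i = 0} = ∅ := by ext i; simp
        unfold asub; rw [this]; exact finite_empty
      exact hb _ _ hne (asub_trans h2 hj')
    refine (s1.finite.union s2.finite).subset ?_
    intro j hj
    by_contra hcon
    apply hj
    rw [mem_union, not_or] at hcon
    refine ⟨fun h => hcon.1 (Or.inl h), fun h => hcon.2 h, fun h => hcon.1 (Or.inr h)⟩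
  have hunused : ∀ θ c, ∃ r ∈ JJ R θ, b r ∉ badp c := by
    intro θ c
    by_contra hcon
    push Not at hcon
    have hNm : MeasurableSet (toMeasurable μ (badp c))ᶜ := (measurableSet_toMeasurable _ _).compl
    have hpos : 0 < μ (toMeasurable μ (badp c))ᶜ := by
      have h1 : μ (toMeasurable μ (badp c)) < μ Set.univ := by
        rw [measure_toMeasurable]
        exact (measure_badp c).trans_lt measure_halfC
      rw [measure_compl (measurableSet_toMeasurable _ _) (measure_ne_top _ _)]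
      exact tsub_pos_of_lt h1
    have h1 := hbig _ hNm hpos
    have h2 : {α | b α ∈ (toMeasurable μ (badp c))ᶜ} ⊆
        {j | ¬ (b j ≠ 0 ∧ ¬ asub (fun _ => 1) (b j) ∧ ¬ asub (b j) 0)} ∪
          ⋃ η ∈ Iio θ, ((R η).2.2 : Set TH) := by
      intro j hj
      by_contra hcon2
      rw [mem_union, not_or] at hcon2
      have h3 : j ∈ JJ R θ := by
        have h4 : b j ≠ 0 ∧ ¬ asub (fun _ => 1) (b j) ∧ ¬ asub (b j) 0 := by
          by_contra h; exact hcon2.1 h
        refine ⟨h4.1, h4.2.1, h4.2.2, fun η hη hjη => hcon2.2 ?_⟩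
        exact mem_biUnion (x := η) hη hjη
      exact hj (subset_toMeasurable _ _ (hcon j h3))
    have h3 : #{α | b α ∈ (toMeasurable μ (badp c))ᶜ} < 𝔠 := by
      refine small_mono h2 (small_union ?_ (small_biUnion (TH_Iio θ) fun η _ =>
        (Finset.finite_toSet _).countable))
      exact (hfin.countable.le_aleph0).trans_lt aleph0_lt_continuum
    exact absurd h1 (not_le.2 h3)
  have hmain : ∀ θ, good R θ (R θ) := by
    intro θ
    induction θ using (wellFounded_lt (α := TH)).induction with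
    | _ θ ih =>
      apply hstep
      obtain ⟨r, hr, hrb⟩ := hunused θ (e.symm θ)
      have hInv : Inv b (AA R θ) (NN R θ) (JJ R θ) := by
        refine ⟨?_, ?_, ?_⟩
        · rintro a (ha | ha) n (hn | hn)
          · rw [mem_singleton_iff] at ha hn
            rw [ha, hn]; exact hone
          · obtain ⟨η, hη, hn⟩ := mem_iUnion₂.1 hn
            exact (ih η hη).1.1 a (Or.inl (Or.inl ha)) n (Or.inr hn)
          · obtain ⟨η, hη, ha⟩ := mem_iUnion₂.1 ha
            exact (ih η hη).1.1 a (Or.inr ha) n (Or.inl (Or.inl hn))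
          · obtain ⟨η, hη, ha⟩ := mem_iUnion₂.1 ha
            obtain ⟨ζ, hζ, hn⟩ := mem_iUnion₂.1 hn
            rcases lt_trichotomy η ζ with h | h | h
            · exact (ih ζ hζ).1.1 a (Or.inl (Or.inr (mem_biUnion (x := η) h ha))) n (Or.inr hn)
            · subst h
              exact (ih η hζ).1.1 a (Or.inr ha) n (Or.inr hn)
            · exact (ih η hη).1.1 a (Or.inr ha) n (Or.inl (Or.inr (mem_biUnion (x := ζ) h hn)))
        · rintro a (ha | ha) j hj
          · rw [mem_singleton_iff] at ha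
            rw [ha]; exact hj.2.1
          · obtain ⟨η, hη, ha⟩ := mem_iUnion₂.1 ha
            refine (ih η hη).1.2.1 a (Or.inr ha) j ⟨⟨hj.1, hj.2.1, hj.2.2.1, ?_⟩, ?_⟩
            · exact fun ζ hζ => hj.2.2.2 ζ (hζ.trans hη)
            · exact fun h => hj.2.2.2 η hη (by simpa using h)
        · rintro n (hn | hn) j hj
          · rw [mem_singleton_iff] at hn
            rw [hn]; exact hj.2.2.1
          · obtain ⟨η, hη, hn⟩ := mem_iUnion₂.1 hn
            refine (ih η hη).1.2.2 n (Or.inr hn) j ⟨⟨hj.1, hj.2.1, hj.2.2.1, ?_⟩, ?_⟩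
            · exact fun ζ hζ => hj.2.2.2 ζ (hζ.trans hη)
            · exact fun h => hj.2.2.2 η hη (by simpa using h)
      obtain ⟨A', N', S, h1, h2⟩ := step_semi hb hInv (e.symm θ) hr hrb
      exact ⟨(A', N', S), h1, h2⟩
  refine ⟨{fun _ => 1} ∪ ⋃ η, (R η).1, {0} ∪ ⋃ η, (R η).2.1, ⟨_, Or.inl rfl⟩, Or.inl rfl,
    ?_, ?_⟩
  · rintro a (ha | ha) n (hn | hn)
    · rw [mem_singleton_iff] at ha hn
      rw [ha, hn]; exact hone
    · obtain ⟨η, hn⟩ := mem_iUnion.1 hn
      exact (hmain η).1.1 a (Or.inl (Or.inl ha)) n (Or.inr hn)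
    · obtain ⟨η, ha⟩ := mem_iUnion.1 ha
      exact (hmain η).1.1 a (Or.inr ha) n (Or.inl (Or.inl hn))
    · obtain ⟨η, ha⟩ := mem_iUnion.1 ha
      obtain ⟨ζ, hn⟩ := mem_iUnion.1 hn
      rcases lt_trichotomy η ζ with h | h | h
      · exact (hmain ζ).1.1 a (Or.inl (Or.inr (mem_biUnion (x := η) h ha))) n (Or.inr hn)
      · subst h
        exact (hmain η).1.1 a (Or.inr ha) n (Or.inr hn)
      · exact (hmain η).1.1 a (Or.inr ha) n (Or.inl (Or.inr (mem_biUnion (x := ζ) h hn)))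
  · intro c
    have h1 := (hmain (e c)).2
    rw [Equiv.symm_apply_apply] at h1
    refine h1.mono ?_ ?_
    · exact fun x hx => Or.inr (mem_iUnion.2 ⟨e c, hx⟩)
    · exact fun x hx => Or.inr (mem_iUnion.2 ⟨e c, hx⟩)

theorem exists_semifilter : ∃ S : Set C2, S.Nonempty ∧ (∀ x ∈ S, ¬ asub x 0) ∧
    (∀ x ∈ S, ∀ y, asub x y → y ∈ S) ∧
    IsEmpty ({x : S | (x : C2) 0 ≠ 0} ≃ₜ S) := by
  obtain ⟨A, N, hA, h0, hAN, hK⟩ := exists_AN
  let S : Set C2 := {x | ∃ a ∈ A, asub a x}
  have hAS : A ⊆ S := fun a ha => ⟨a, ha, asub_refl a⟩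
  have hNS : ∀ n ∈ N, n ∉ S := by
    rintro n hn ⟨a, ha, h⟩
    exact hAN a ha n hn h
  refine ⟨S, hA.mono hAS, ?_, ?_, ⟨fun h => ?_⟩⟩
  · rintro x ⟨a, ha, hax⟩ hx
    exact hAN a ha 0 h0 (asub_trans hax hx)
  · rintro x ⟨a, ha, hax⟩ y hxy
    exact ⟨a, ha, asub_trans hax hxy⟩
  · let f : S → C2 := fun τ => ((h.symm τ).1 : C2)
    have hf : IsInducing f :=
      IsInducing.subtypeVal.comp (IsInducing.subtypeVal.comp h.symm.isInducing)
    have hfh : ∀ τ, f τ ∈ halfC := fun τ => (h.symm τ).2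
    have : Nonempty S := (hA.mono hAS).to_subtype
    obtain ⟨c, hc⟩ := exists_rel (g := fun τ : S => (τ : C2)) hf IsInducing.subtypeVal
    obtain ⟨y, ⟨h1, h2⟩ | ⟨x, hx, hr, ⟨h1, h2⟩ | ⟨h1, h2⟩⟩⟩ := hK c
    · exact h2 ⟨f ⟨y, hAS h1⟩, hfh _, hc ⟨y, hAS h1⟩⟩
    · have hxS : x ∈ S := hAS h1
      have h3 := hc (h ⟨⟨x, hxS⟩, hx⟩)
      have h4 : f (h ⟨⟨x, hxS⟩, hx⟩) = x := by
        simp only [f]
        rw [Homeomorph.symm_apply_apply]
      rw [h4] at h3
      have h5 : y = (h ⟨⟨x, hxS⟩, hx⟩ : C2) := hr.unique h3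
      exact hNS y h2 (h5 ▸ (h ⟨⟨x, hxS⟩, hx⟩).2)
    · have h3 := hc ⟨y, hAS h2⟩
      have h5 : x = f ⟨y, hAS h2⟩ := hr.unique' h3
      exact hNS x h1 (h5 ▸ (h.symm ⟨y, hAS h2⟩).1.2)

end Pool.Agent.Q304.SH
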