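import Pool.Agent.Q304.SH.Exist

/-!
A homogeneous zero-dimensional space which is not a countable union of strongly homogeneous
subspaces.
-/

open Set Cardinal Topology Filter MeasureTheory

namespace Pool.Agent.Q304.SH

open Pool.Agent.Q304.FP (Rel)

/-- Every nonempty clopen subset of the subspace `Y` is homeomorphic to `Y`. -/
def StrHom (Y : Set C2) : Prop := ∀ U : Set Y, IsClopen U → U.Nonempty → Nonempty (U ≃ₜ Y)

/-- All points that are finite changes of the points of the generic sequence. -/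
def XA (p : Pts) : Set C2 := {x | ∃ α, x ∈ cls (p.a α)}

/-- The points obtained up to stage `θ`. -/
def ZA (p : Pts) (θ : p.Θ) : Set C2 := letI := p.lo; {x | ∃ α ≤ θ, x ∈ cls (p.a α)}

lemma XA_homog (p : Pts) : Homog (XA p) := by
  refine homog_of_inv ?_
  rintro x ⟨α, hα⟩ y hy
  exact ⟨α, cls_trans _ _ _ hα hy⟩

instance : (𝓝[≠] (0 : C2)).NeBot := by
  rw [← mem_closure_iff_nhdsWithin_neBot, mem_closure_iff_nhds]
  intro U hU
  rw [nhds_pi, Filter.mem_pi] at hU
  obtain ⟨I, hI, t, ht, htU⟩ := hU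
  obtain ⟨n, hn⟩ := hI.exists_notMem
  refine ⟨flp {n}, htU fun i hi => ?_, ?_⟩
  · have hin : i ≠ n := fun h => hn (h ▸ hi)
    have : flp {n} i = (0 : C2) i := by simp [flp, hin]
    rw [this]
    exact mem_of_mem_nhds (ht i)
  · intro h
    have := congrFun h n
    simp [flp] at this

/-- Haar measure on the Cantor group. -/
noncomputable abbrev μ : Measure C2 := Measure.addHaar

instance : NullSingletonClass μ := Measure.IsAddHaarMeasure.nullSingletonClass _

lemma exists_clopen (y : C2) {ε : ENNReal} (hε : 0 < ε) : ∃ C : Set C2, IsClopen C ∧ y ∈ C ∧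
    μ C < ε := by
  have h0 : μ {y} < ε := by simpa using hε
  obtain ⟨U, hU, hUo, hUε⟩ := Set.exists_isOpen_lt_of_lt {y} ε h0
  obtain ⟨V, hV, hyV, hVU⟩ := compact_exists_isClopen_in_isOpen hUo (hU rfl)
  exact ⟨V, hV, hyV, (measure_mono hVU).trans_lt hUε⟩

lemma small_measure (p : Pts) {Y : Set C2} (hYX : Y ⊆ XA p) (hY : StrHom Y) {ε : ENNReal}
    (hε : 0 < ε) : ∃ θ : p.Θ, μ (Y \ ZA p θ) ≤ ε := by
  let _ := p.lo
  rcases Y.eq_empty_or_nonempty with h0 | ⟨y, hy⟩
  · obtain ⟨s, _⟩ := p.code (fun _ => (0, 0))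
    exact ⟨s, by simp [h0]⟩
  · obtain ⟨C, hC, hyC, hCε⟩ := exists_clopen y hε
    obtain ⟨h⟩ := hY ((fun z : Y => (z : C2)) ⁻¹' C) (hC.preimage continuous_subtype_val)
      ⟨⟨y, hy⟩, hyC⟩
    have : Nonempty Y := ⟨⟨y, hy⟩⟩
    let f : Y → C2 := fun τ => ((h.symm τ).1 : C2)
    have hf : IsInducing f :=
      IsInducing.subtypeVal.comp (IsInducing.subtypeVal.comp h.symm.isInducing)
    have hfinj : Function.Injective f := by
      intro τ τ' hτ
      exact h.symm.injective (Subtype.ext (Subtype.ext hτ))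
    have hfC : ∀ τ, f τ ∈ C := fun τ => (h.symm τ).2
    have hfY : ∀ τ, f τ ∈ Y := fun τ => (h.symm τ).1.2
    obtain ⟨c, hc⟩ := exists_rel (g := fun τ : Y => (τ : C2)) hf IsInducing.subtypeVal
    obtain ⟨s, hs⟩ := p.code c
    refine ⟨s, ?_⟩
    let F : Finset ℕ → Set C2 := fun t => {x | ∃ hx : x ∈ Y, f ⟨x, hx⟩ = x + flp t}
    let G : Finset ℕ → Set C2 := fun t => {z | ∃ τ : Y, f τ = z ∧ f τ = τ + flp t}
    have hFG : ∀ t, F t = (fun x => x + flp t) ⁻¹' (G t) := by
      intro t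
      ext x
      constructor
      · rintro ⟨hx, h⟩
        exact ⟨⟨x, hx⟩, h, h⟩
      · rintro ⟨τ, h1, h2⟩
        have h3 : (τ : C2) = x := by
          have := h2.symm.trans h1
          exact add_right_cancel this
        refine ⟨h3 ▸ τ.2, ?_⟩
        have h4 : (⟨x, h3 ▸ τ.2⟩ : Y) = τ := Subtype.ext h3.symm
        rw [h4]
        exact h1
    have hμFG : ∀ t, μ (F t) = μ (G t) := by
      intro t
      rw [hFG t]
      exact measure_preimage_add_right μ (flp t) (G t)
    have hcover : Y \ ZA p s ⊆ ⋃ t, F t := by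
      rintro x ⟨hxY, hxZ⟩
      obtain ⟨α, hα⟩ := hYX hxY
      have hsα : s < α := by
        by_contra hcon
        exact hxZ ⟨α, not_lt.1 hcon, hα⟩
      obtain ⟨β, hβ⟩ := hYX (hfY ⟨x, hxY⟩)
      have hαβ : β = α := by
        by_contra hne
        exact hs β α hne (Or.inr hsα.le) _ hβ _ hα (hc ⟨x, hxY⟩)
      rw [hαβ] at hβ
      obtain ⟨t, ht⟩ := cls_trans _ _ _ (cls_symm _ _ hα) hβ
      exact mem_iUnion.2 ⟨t, hxY, ht.symm⟩
    -- closed sets
    have hL : ∀ t, ∃ L : Set C2, IsClosed L ∧ f ⁻¹' L = {τ | f τ = τ + flp t} := by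
      intro t
      have hcl : IsClosed {τ : Y | f τ = τ + flp t} :=
        isClosed_eq hf.continuous (continuous_subtype_val.add continuous_const)
      exact (hf.isClosed_iff).1 hcl
    choose L hLc hLf using hL
    have hGL : ∀ t, G t = L t ∩ range f := by
      intro t
      ext z
      constructor
      · rintro ⟨τ, h1, h2⟩
        refine ⟨?_, τ, h1⟩
        have : τ ∈ f ⁻¹' L t := by rw [hLf]; exact h2
        rw [← h1]; exact this
      · rintro ⟨h1, τ, rfl⟩
        have : τ ∈ f ⁻¹' L t := h1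
        rw [hLf] at this
        exact ⟨τ, rfl, this⟩
    have hGdisj : ∀ t t', t ≠ t' → G t ∩ G t' = ∅ := by
      intro t t' htt
      rw [Set.eq_empty_iff_forall_notMem]
      rintro z ⟨⟨τ, h1, h2⟩, ⟨τ', h3, h4⟩⟩
      have h5 : τ = τ' := hfinj (h1.trans h3.symm)
      subst h5
      have h6 := h2.symm.trans h4
      exact htt (flp_inj (add_left_cancel h6))
    have hsum : ∑' t, μ (G t) ≤ μ C := by
      have h1 : ∀ t, μ (G t) = (μ.restrict (range f)) (L t) := by
        intro t
        rw [Measure.restrict_apply (hLc t).measurableSet, hGL t]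
      calc ∑' t, μ (G t) = ∑' t, (μ.restrict (range f)) (L t) := tsum_congr h1
        _ = (μ.restrict (range f)) (⋃ t, L t) := by
            rw [measure_iUnion₀]
            · intro t t' htt
              change (μ.restrict (range f)) (L t ∩ L t') = 0
              rw [Measure.restrict_apply ((hLc t).inter (hLc t')).measurableSet]
              have : L t ∩ L t' ∩ range f = G t ∩ G t' := by
                rw [hGL t, hGL t']
                ext z; simp only [mem_inter_iff]; tauto
              rw [this, hGdisj t t' htt]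
              simp
            · exact fun t => (hLc t).measurableSet.nullMeasurableSet
        _ ≤ (μ.restrict (range f)) Set.univ := measure_mono (subset_univ _)
        _ = μ (range f) := by rw [Measure.restrict_apply MeasurableSet.univ]; simp
        _ ≤ μ C := measure_mono (by rintro _ ⟨τ, rfl⟩; exact hfC τ)
    calc μ (Y \ ZA p s) ≤ μ (⋃ t, F t) := measure_mono hcover
      _ ≤ ∑' t, μ (F t) := measure_iUnion_le _
      _ = ∑' t, μ (G t) := tsum_congr hμFG
      _ ≤ μ C := hsum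
      _ ≤ ε := hCε.le

theorem XA_not_union (p : Pts) (Y : ℕ → Set C2) (hY : ∀ n, StrHom (Y n)) :
    XA p ≠ ⋃ n, Y n := by
  let _ := p.lo
  intro hX
  have hYX : ∀ n, Y n ⊆ XA p := fun n => by rw [hX]; exact subset_iUnion Y n
  have h1 : ∀ q : ℕ × ℕ, ∃ θ : p.Θ, μ (Y q.1 \ ZA p θ) ≤ ((q.2 : ENNReal) + 1)⁻¹ := fun q =>
    small_measure p (hYX q.1) (hY q.1) (by
      simp)
  choose φ hφ using h1
  obtain ⟨θ, hθ⟩ := p.cof (fun n => φ (Nat.unpair n))
  have hmono : ∀ q : ℕ × ℕ, ZA p (φ q) ⊆ ZA p θ := by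
    rintro q x ⟨α, hα, hx⟩
    have := hθ (Nat.pair q.1 q.2)
    simp only [Nat.unpair_pair] at this
    exact ⟨α, hα.trans this, hx⟩
  have h2 : ∀ n, μ (Y n \ ZA p θ) = 0 := by
    intro n
    by_contra hne
    have hpos : 0 < μ (Y n \ ZA p θ) := pos_iff_ne_zero.2 hne
    obtain ⟨k, hk⟩ := ENNReal.exists_inv_nat_lt hne
    have h3 : μ (Y n \ ZA p θ) ≤ ((k : ENNReal) + 1)⁻¹ :=
      (measure_mono (sdiff_subset_sdiff_right (hmono (n, k)))).trans (hφ (n, k))
    have h4 : ((k : ENNReal) + 1)⁻¹ ≤ (k : ENNReal)⁻¹ := ENNReal.inv_le_inv.2 le_self_add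
    exact absurd (h3.trans h4) (not_le.2 hk)
  have h3 : μ (XA p \ ZA p θ) = 0 := by
    rw [hX, iUnion_sdiff]
    exact measure_iUnion_null h2
  obtain ⟨N, hN, hNm, hN0⟩ := exists_measurable_superset_of_null h3
  have h4 : ¬ (Nᶜ).Countable := by
    intro h
    have h5 : μ Nᶜ = 0 := h.measure_zero μ
    have h6 : μ (Set.univ : Set C2) = 0 := by
      rw [← union_compl_self N]
      exact measure_union_null hN0 h5
    have h7 : (0 : ENNReal) < μ (Set.univ : Set C2) :=
      IsOpen.measure_pos μ isOpen_univ univ_nonempty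
    rw [h6] at h7
    exact lt_irrefl _ h7
  obtain ⟨α, hα, haN⟩ := p.big Nᶜ hNm.compl h4 θ
  apply haN
  apply hN
  refine ⟨⟨α, mem_cls_self _⟩, ?_⟩
  rintro ⟨β, hβ, hx⟩
  have := p.disj α β (p.a α) (mem_cls_self _) hx
  rw [this] at hα
  exact absurd hα (not_lt.2 hβ)

end Pool.Agent.Q304.SH
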